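import Mathlib

/-! Convex geometry for the convex case of the question of Rossi: compactness of convex hulls,
direction spaces of faces, and a pluriharmonic quadratic function that is negative on a compact
subset of a convex set whose face through the origin is totally real. -/

set_option autoImplicit false

open Set Filter Topology Metric

namespace Pool.Agent.Lib.MP_f65947_an.Cvx

theorem isCompact_hull {G : Type} [NormedAddCommGroup G] [NormedSpace ℝ G]
    [FiniteDimensional ℝ G] {T : Set G} (hT : IsCompact T) : IsCompact (convexHull ℝ T) := by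
  classical
  rcases T.eq_empty_or_nonempty with rfl | ⟨t0, ht0⟩
  · simp
  set d := Module.finrank ℝ G + 1 with hd
  have hc : IsCompact ((stdSimplex ℝ (Fin d)) ×ˢ (Set.pi univ fun _ : Fin d => T)) :=
    (isCompact_stdSimplex ℝ (Fin d)).prod (isCompact_univ_pi fun _ => hT)
  have hf : Continuous fun p : (Fin d → ℝ) × (Fin d → G) => ∑ i, p.1 i • p.2 i := by fun_prop
  have e : convexHull ℝ T = (fun p : (Fin d → ℝ) × (Fin d → G) => ∑ i, p.1 i • p.2 i) ''
      ((stdSimplex ℝ (Fin d)) ×ˢ (Set.pi univ fun _ : Fin d => T)) := by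
    apply Subset.antisymm
    · intro x hx
      obtain ⟨ι, _, z, w, hz, hai, hw, hw1, hx⟩ := eq_pos_convex_span_of_mem_convexHull hx
      have hcard : Fintype.card ι ≤ Fintype.card (Fin d) := by
        rw [Fintype.card_fin, hd]
        exact hai.card_le_finrank_succ.trans (Nat.succ_le_succ (Submodule.finrank_le _))
      obtain ⟨j⟩ := Function.Embedding.nonempty_of_card_le hcard
      have key : ∀ (M : Type) [AddCommMonoid M] (φ : Fin d → M) (ψ : ι → M),
          (∀ i, φ (j i) = ψ i) → (∀ k, (¬ ∃ i, j i = k) → φ k = 0) → ∑ k, φ k = ∑ i, ψ i := by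
        intro M _ φ ψ h1 h2
        symm
        refine Finset.sum_of_injOn j j.injective.injOn (fun _ _ => Finset.mem_univ _) ?_
          (fun i _ => (h1 i).symm)
        intro k _ hk
        apply h2
        rintro ⟨i, rfl⟩
        exact hk ⟨i, by simp, rfl⟩
      refine ⟨(Function.extend j w 0, Function.extend j z fun _ => t0), ⟨⟨?_, ?_⟩, ?_⟩, ?_⟩
      · intro k
        by_cases hk : ∃ i, j i = k
        · obtain ⟨i, rfl⟩ := hk
          simp only [j.injective.extend_apply]
          exact (hw i).le
        · simp [Function.extend_apply' _ _ _ hk]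
      · rw [← hw1]
        exact key ℝ _ _ (fun i => j.injective.extend_apply _ _ _)
          (fun k hk => by simp [Function.extend_apply' _ _ _ hk])
      · intro k _
        by_cases hk : ∃ i, j i = k
        · obtain ⟨i, rfl⟩ := hk
          simp only [j.injective.extend_apply]
          exact hz ⟨i, rfl⟩
        · simpa [Function.extend_apply' _ _ _ hk] using ht0
      · rw [← hx]
        exact key G _ _ (fun i => by simp only [j.injective.extend_apply])
          (fun k hk => by simp [Function.extend_apply' _ _ _ hk])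
    · rintro x ⟨p, ⟨hp1, hp2⟩, rfl⟩
      exact (convex_convexHull ℝ T).sum_mem (fun i _ => hp1.1 i) hp1.2
        (fun i _ => subset_convexHull ℝ T (hp2 i (mem_univ i)))
  rw [e]
  exact hc.image hf

section
variable {E : Type} [AddCommGroup E] [Module ℝ E]

/-- The directions in which one can move both ways from the origin inside `F`. -/
def dirSub (F : Set E) (hF : Convex ℝ F) (h0 : (0 : E) ∈ F) : Submodule ℝ E where
  carrier := {v | ∃ ε : ℝ, 0 < ε ∧ ∀ a : ℝ, |a| ≤ ε → a • v ∈ F}
  zero_mem' := ⟨1, one_pos, fun a _ => by simpa using h0⟩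
  add_mem' := by
    rintro v w ⟨ε, hε, hv⟩ ⟨δ, hδ, hw⟩
    refine ⟨min ε δ / 2, by positivity, fun a ha => ?_⟩
    have h1 := min_le_left ε δ
    have h2 := min_le_right ε δ
    have h3 : |2 * a| = 2 * |a| := by rw [abs_mul]; simp
    have := hF (hv (2 * a) (by linarith)) (hw (2 * a) (by linarith))
      (show (0 : ℝ) ≤ 1 / 2 by norm_num) (show (0 : ℝ) ≤ 1 / 2 by norm_num) (by norm_num)
    convert this using 1
    module
  smul_mem' := by
    rintro c v ⟨ε, hε, hv⟩
    refine ⟨ε / (|c| + 1), by positivity, fun a ha => ?_⟩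
    rw [smul_smul]
    apply hv
    rw [abs_mul]
    have h1 : 0 < |c| + 1 := by positivity
    rw [le_div_iff₀ h1] at ha
    nlinarith [abs_nonneg a, abs_nonneg c]

theorem mem_dirSub_of {F : Set E} (hF : Convex ℝ F) (h0 : (0 : E) ∈ F) {v : E} {ε : ℝ}
    (hε : 0 < ε) (h1 : ε • v ∈ F) (h2 : (-ε) • v ∈ F) : v ∈ dirSub F hF h0 := by
  refine ⟨ε, hε, fun a ha => ?_⟩
  obtain ⟨ha1, ha2⟩ := abs_le.1 ha
  have := hF h1 h2 (show 0 ≤ (ε + a) / (2 * ε) by
    apply div_nonneg <;> linarith) (show 0 ≤ (ε - a) / (2 * ε) by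
    apply div_nonneg <;> linarith) (by field_simp; ring)
  convert this using 1
  rw [smul_smul, smul_smul, ← add_smul]
  congr 1
  field_simp
  ring

end

/-- The matrix of products of coordinates. -/
def outer {n : ℕ} (s t : Fin n → ℂ) : Fin n × Fin n → ℂ := fun p => s p.1 * t p.2

/-- The same as a real bilinear map. -/
noncomputable def outerL (n : ℕ) : (Fin n → ℂ) →ₗ[ℝ] (Fin n → ℂ) →ₗ[ℝ] (Fin n × Fin n → ℂ) :=
  LinearMap.mk₂ ℝ outer
    (fun s s' t => by funext p; simp [outer, add_mul])
    (fun c s t => by funext p; simp [outer, mul_assoc])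
    (fun s t t' => by funext p; simp [outer, mul_add])
    (fun c s t => by funext p; simp [outer, mul_left_comm])

theorem exists_neg {n : ℕ} (F : Set (Fin n → ℂ)) (hF : Convex ℝ F) (h0 : (0 : Fin n → ℂ) ∈ F)
    (S : Set (Fin n → ℂ)) (hS : IsCompact S) (hSF : S ⊆ F) (hS0 : (0 : Fin n → ℂ) ∉ S)
    (hreal : ∀ v, v ∈ dirSub F hF h0 → Complex.I • v ∈ dirSub F hF h0 → v = 0) :
    ∃ (L : (Fin n → ℂ) →ₗ[ℝ] ℝ) (B : (Fin n → ℂ) →ₗ[ℝ] (Fin n → ℂ) →ₗ[ℝ] ℝ) (u : ℝ), 0 < u ∧
      (∀ w, B w w + B (Complex.I • w) (Complex.I • w) = 0) ∧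
      ∀ s ∈ S, L s + B s s ≤ -u := by
  classical
  let Φ : (Fin n → ℂ) → (Fin n → ℂ) × (Fin n × Fin n → ℂ) := fun s => (s, outer s s)
  have hΦ : Continuous Φ := by
    refine continuous_id.prodMk (continuous_pi fun p => ?_)
    simp only [outer]
    fun_prop
  have hK := isCompact_hull (hS.image hΦ)
  have hnot : (0 : (Fin n → ℂ) × (Fin n × Fin n → ℂ)) ∉ convexHull ℝ (Φ '' S) := by
    intro hx
    obtain ⟨ι, _, z, w, hz, -, hw, hw1, hx⟩ := eq_pos_convex_span_of_mem_convexHull hx
    have hz' : ∀ i, ∃ s ∈ S, Φ s = z i := fun i => hz ⟨i, rfl⟩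
    choose s hs hsz using hz'
    have h1 : ∑ i, w i • s i = 0 := by
      have := congrArg Prod.fst hx
      simpa [Prod.fst_sum, ← hsz, Φ] using this
    have h2 : ∀ k l, ∑ i, (w i : ℂ) * (s i k * s i l) = 0 := by
      intro k l
      have := congrFun (congrArg Prod.snd hx) (k, l)
      simpa [Prod.snd_sum, ← hsz, Φ, outer, Finset.sum_apply] using this
    have hne : Nonempty ι := by
      by_contra h
      rw [not_nonempty_iff] at h
      simp at hw1
    have hdir : ∀ i, s i ∈ dirSub F hF h0 := by
      intro i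
      have hle : w i ≤ 1 := by
        rw [← hw1]
        exact Finset.single_le_sum (fun j _ => (hw j).le) (Finset.mem_univ i)
      refine mem_dirSub_of hF h0 (hw i) ?_ ?_
      · have := hF (hSF (hs i)) h0 (hw i).le (sub_nonneg.2 hle) (by ring)
        simpa using this
      · have hm : ∑ j, w j • (if j = i then 0 else s j) ∈ F :=
          hF.sum_mem (fun j _ => (hw j).le) hw1 (fun j _ => by
            split_ifs
            · exact h0
            · exact hSF (hs j))
        convert hm using 1
        have e1 : ∑ j, w j • (if j = i then 0 else s j) =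
            ∑ j, (w j • s j - if j = i then w j • s j else 0) := by
          refine Finset.sum_congr rfl fun j _ => ?_
          split_ifs <;> simp
        rw [e1, Finset.sum_sub_distrib, h1]
        simp
    obtain ⟨i0⟩ := hne
    let J : (Fin n → ℂ) →ₗ[ℝ] (Fin n → ℂ) :=
      { toFun := fun v => Complex.I • v
        map_add' := fun x y => smul_add _ _ _
        map_smul' := fun c x => by simpa using smul_comm Complex.I c x }
    have hnm : s i0 ∉ (dirSub F hF h0).comap J := by
      intro h
      exact hS0 (hreal _ (hdir i0) h ▸ hs i0)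
    obtain ⟨a, ha, hker⟩ := Submodule.exists_le_ker_of_notMem hnm
    have haI : ∀ i, a (Complex.I • s i) = 0 := by
      intro i
      apply hker
      show Complex.I • Complex.I • s i ∈ dirSub F hF h0
      rw [smul_smul, Complex.I_mul_I, neg_one_smul]
      exact neg_mem (hdir i)
    let c : Fin n → ℂ := fun k =>
      (a (Pi.single k 1) : ℂ) - Complex.I * (a (Pi.single k Complex.I) : ℂ)
    have hre : ∀ v : Fin n → ℂ, (∑ k, c k * v k).re = a v := by
      intro v
      have e : v = ∑ k, ((v k).re • (Pi.single k 1 : Fin n → ℂ) +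
          (v k).im • (Pi.single k Complex.I : Fin n → ℂ)) := by
        funext l
        simp [Finset.sum_apply, Pi.single_apply, Finset.sum_add_distrib]
      conv_rhs => rw [e]
      rw [map_sum, Complex.re_sum]
      refine Finset.sum_congr rfl fun k _ => ?_
      simp [c]
      ring
    have hal : ∀ i, ∑ k, c k * s i k = (a (s i) : ℂ) := by
      intro i
      apply Complex.ext
      · simpa using hre (s i)
      · have h3 := hre (Complex.I • s i)
        rw [haI] at h3
        have e : ∑ k, c k * (Complex.I • s i) k = Complex.I * ∑ k, c k * s i k := by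
          rw [Finset.mul_sum]
          refine Finset.sum_congr rfl fun k _ => ?_
          simp only [Pi.smul_apply, smul_eq_mul]
          ring
        rw [e] at h3
        simpa using h3
    have h4 : ∑ i, (w i : ℂ) * (a (s i) : ℂ) ^ 2 = 0 := by
      have e : ∀ i, (w i : ℂ) * (a (s i) : ℂ) ^ 2 =
          ∑ k, ∑ l, c k * c l * ((w i : ℂ) * (s i k * s i l)) := by
        intro i
        rw [← hal, sq, Finset.sum_mul_sum, Finset.mul_sum]
        refine Finset.sum_congr rfl fun k _ => ?_
        rw [Finset.mul_sum]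
        refine Finset.sum_congr rfl fun l _ => ?_
        ring
      simp only [e]
      rw [Finset.sum_comm]
      refine Finset.sum_eq_zero fun k _ => ?_
      rw [Finset.sum_comm]
      refine Finset.sum_eq_zero fun l _ => ?_
      rw [← Finset.mul_sum, h2, mul_zero]
    have h5 : ∑ i, w i * a (s i) ^ 2 = 0 := by exact_mod_cast h4
    have h6 : 0 < ∑ i, w i * a (s i) ^ 2 :=
      Finset.sum_pos' (fun i _ => mul_nonneg (hw i).le (sq_nonneg _))
        ⟨i0, Finset.mem_univ _, mul_pos (hw i0) (by positivity)⟩
    exact h6.ne' h5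
  obtain ⟨f, u, hu, hf⟩ :=
    geometric_hahn_banach_point_closed (convex_convexHull ℝ _) hK.isClosed hnot
  refine ⟨-(f.toLinearMap.comp (LinearMap.inl ℝ _ _)),
    -((outerL n).compr₂ (f.toLinearMap.comp (LinearMap.inr ℝ _ _))), u, by simpa using hu, ?_, ?_⟩
  · intro w
    have e : outer (Complex.I • w) (Complex.I • w) = -outer w w := by
      funext p
      simp only [outer, Pi.smul_apply, smul_eq_mul, Pi.neg_apply]
      linear_combination (w p.1 * w p.2) * Complex.I_mul_I
    have e2 : f (0, -outer w w) = -f (0, outer w w) := by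
      rw [← map_neg]; simp
    simp [outerL, e, e2]
  · intro s hs
    have h1 := hf (Φ s) (subset_convexHull ℝ _ ⟨s, hs, rfl⟩)
    have e : f (Φ s) = f (s, 0) + f (0, outer s s) := by
      rw [← map_add]; simp [Φ]
    simp [outerL]
    linarith

end Pool.Agent.Lib.MP_f65947_an.Cvx
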