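import Pool.Agent.Lib.MP_f65947_an.ConvexA

/-! The question of Rossi for locally convex domains: an affine complex ball of the dimension of
the Levi null spaces passes through every point. -/

set_option autoImplicit false

open Set Filter Topology Metric

namespace Pool.Agent.Lib.MP_f65947_an.Cvx

section
variable {E : Type} [NormedAddCommGroup E] [NormedSpace ℝ E]

theorem curve_nonpos {ρ : E → ℝ} {z w ν : E} {c : ℝ} (hρ : ContDiffAt ℝ 2 ρ z) (h0 : ρ z = 0)
    (hw : fderiv ℝ ρ z w = 0)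
    (h2 : fderiv ℝ (fderiv ℝ ρ) z w w + 2 * c * fderiv ℝ ρ z ν < 0) :
    ∀ᶠ t : ℝ in 𝓝 0, ρ (z + (t • w + (c * t ^ 2) • ν)) ≤ 0 := by
  let γ : ℝ → E := fun t => z + (t • w + (c * t ^ 2) • ν)
  have hγ0 : γ 0 = z := by simp [γ]
  have hγ : ∀ t, HasDerivAt γ (w + (2 * c * t) • ν) t := by
    intro t
    have h1 : HasDerivAt (fun t : ℝ => t • w) w t := by
      simpa using (hasDerivAt_id t).smul_const w
    have h2 : HasDerivAt (fun t : ℝ => c * t ^ 2) (2 * c * t) t := by
      have := (hasDerivAt_pow 2 t).const_mul c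
      refine this.congr_deriv ?_
      norm_num
      ring
    exact (h1.add (h2.smul_const ν)).const_add z
  have hγc : Tendsto γ (𝓝 0) (𝓝 z) := by
    have := (hγ 0).continuousAt
    rwa [ContinuousAt, hγ0] at this
  have hev : ∀ᶠ y in 𝓝 z, DifferentiableAt ℝ ρ y :=
    (hρ.eventually (by simp)).mono fun y hy => hy.differentiableAt (by simp)
  have hd : deriv (fun t => ρ (γ t)) =ᶠ[𝓝 0]
      fun t => fderiv ℝ ρ (γ t) (w + (2 * c * t) • ν) := by
    filter_upwards [hγc.eventually hev] with t ht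
    exact (ht.hasFDerivAt.comp_hasDerivAt t (hγ t)).deriv
  have hD : HasFDerivAt (fderiv ℝ ρ) (fderiv ℝ (fderiv ℝ ρ) z) (γ 0) := by
    rw [hγ0]
    exact ((hρ.fderiv_right (m := 1) (by norm_num)).differentiableAt (by simp)).hasFDerivAt
  have hv : HasDerivAt (fun t : ℝ => w + (2 * c * t) • ν) ((2 * c) • ν) 0 := by
    have h2 : HasDerivAt (fun t : ℝ => 2 * c * t) (2 * c) 0 := by
      simpa using (hasDerivAt_id (0 : ℝ)).const_mul (2 * c)
    exact (h2.smul_const ν).const_add w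
  have hdd := (hD.comp_hasDerivAt (0 : ℝ) (hγ 0)).clm_apply hv
  have e2 : deriv (deriv (fun t => ρ (γ t))) 0 =
      fderiv ℝ (fderiv ℝ ρ) z w w + 2 * c * fderiv ℝ ρ z ν := by
    rw [hd.deriv_eq]
    have := hdd.deriv
    simp only [Function.comp, hγ0, mul_zero, zero_smul, add_zero, map_smul, smul_eq_mul] at this
    exact this
  have e1 : deriv (fun t => ρ (γ t)) 0 = 0 := by
    rw [hd.eq_of_nhds]
    simp [hγ0, hw]
  have hc : ContinuousAt (fun t => ρ (γ t)) 0 :=
    ContinuousAt.comp (by rw [hγ0]; exact hρ.continuousAt) (hγ 0).continuousAt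
  have hmax := isLocalMax_of_deriv_deriv_neg (by rw [e2]; exact h2) e1 hc
  filter_upwards [hmax] with t ht
  rw [hγ0, h0] at ht
  exact ht

theorem quad_coeff (L : E →ₗ[ℝ] ℝ) (B : E →ₗ[ℝ] E →ₗ[ℝ] ℝ) (w ν : E) (c : ℝ)
    (h : ∀ᶠ t : ℝ in 𝓝 0, L (t • w + (c * t ^ 2) • ν) +
      B (t • w + (c * t ^ 2) • ν) (t • w + (c * t ^ 2) • ν) ≤ 0) : c * L ν + B w w ≤ 0 := by
  have hneg : Tendsto (fun t : ℝ => -t) (𝓝 0) (𝓝 0) := by
    simpa using (continuous_neg (G := ℝ)).tendsto 0
  have h' := hneg.eventually h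
  have h3 : ∀ᶠ t : ℝ in 𝓝[≠] 0, c * L ν + B w w + t ^ 2 * (c ^ 2 * B ν ν) ≤ 0 := by
    filter_upwards [nhdsWithin_le_nhds h, nhdsWithin_le_nhds h', self_mem_nhdsWithin]
      with t h1 h2 ht
    have ht2 : 0 < t ^ 2 := by
      have : t ≠ 0 := ht
      positivity
    simp only [map_add, map_smul, LinearMap.add_apply, LinearMap.smul_apply, smul_eq_mul] at h1 h2
    have : t ^ 2 * (c * L ν + B w w + t ^ 2 * (c ^ 2 * B ν ν)) ≤ 0 := by nlinarith
    by_contra hh
    push Not at hh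
    have := mul_pos ht2 hh
    linarith
  have hlim : Tendsto (fun t : ℝ => c * L ν + B w w + t ^ 2 * (c ^ 2 * B ν ν)) (𝓝[≠] 0)
      (𝓝 (c * L ν + B w w)) := by
    have : Continuous fun t : ℝ => c * L ν + B w w + t ^ 2 * (c ^ 2 * B ν ν) := by fun_prop
    simpa using (this.tendsto 0).mono_left nhdsWithin_le_nhds
  exact le_of_tendsto hlim h3

omit [NormedSpace ℝ E] in
theorem exists_mul {S : Set E} (hS : IsCompact S) {g A : E → ℝ} (hg : Continuous g)
    (hA : Continuous A) (h1 : ∀ s ∈ S, A s ≤ 0) (h2 : ∀ s ∈ S, A s = 0 → g s < 0) :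
    ∃ M : ℝ, ∀ s ∈ S, g s + M * A s < 0 := by
  obtain ⟨m, hm⟩ := hS.elim_directed_cover (fun m : ℕ => {s | g s + m * min (A s) 0 < 0})
    (fun m => isOpen_lt (by fun_prop) continuous_const) (by
      intro s hs
      rcases (h1 s hs).eq_or_lt with h | h
      · exact mem_iUnion.2 ⟨0, by simpa using h2 s hs h⟩
      · obtain ⟨m, hm⟩ := exists_nat_gt (g s / -A s)
        refine mem_iUnion.2 ⟨m, ?_⟩
        rw [div_lt_iff₀ (by linarith)] at hm
        simp only [mem_ofPred_eq, min_eq_left h.le]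
        linarith) (by
      apply Monotone.directed_le
      intro a b hab s hs
      simp only [mem_ofPred_eq] at hs ⊢
      have h3 : (a : ℝ) ≤ b := by exact_mod_cast hab
      have h4 := min_le_right (A s) 0
      nlinarith)
  refine ⟨m, fun s hs => ?_⟩
  have := hm hs
  simp only [mem_ofPred_eq, min_eq_left (h1 s hs)] at this
  exact this

theorem exists_ball [FiniteDimensional ℝ E] {F : Set E} (hF : Convex ℝ F) (h0 : (0 : E) ∈ F)
    (hc : IsClosed F) (P : Submodule ℝ E) (hP : P ≤ dirSub F hF h0) :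
    ∃ ε : ℝ, 0 < ε ∧ ∀ w ∈ P, ‖w‖ < ε → w ∈ F := by
  let f : ℕ → Set P := fun m =>
    {x | ((m : ℝ) + 1)⁻¹ • (x : E) ∈ F ∧ -(((m : ℝ) + 1)⁻¹ • (x : E)) ∈ F}
  have : CompleteSpace P := FiniteDimensional.complete ℝ P
  obtain ⟨m, x0, hx0⟩ := nonempty_interior_of_iUnion_of_closed (f := f)
    (fun m => (hc.preimage (by fun_prop)).inter (hc.preimage (by fun_prop))) (by
      rw [eq_univ_iff_forall]
      intro x
      obtain ⟨ε, hε, hx⟩ := hP x.2
      obtain ⟨m, hm⟩ := exists_nat_one_div_lt hε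
      have hpos : (0 : ℝ) < ((m : ℝ) + 1)⁻¹ := by positivity
      rw [one_div] at hm
      refine mem_iUnion.2 ⟨m, hx _ (by rw [abs_of_pos hpos]; exact hm.le), ?_⟩
      rw [← neg_smul]
      exact hx _ (by rw [abs_neg, abs_of_pos hpos]; exact hm.le))
  have hconv : Convex ℝ (f m) := by
    intro x hx y hy a b ha hb hab
    refine ⟨?_, ?_⟩
    · convert hF hx.1 hy.1 ha hb hab using 1
      simp only [Submodule.coe_add, Submodule.coe_smul]
      module
    · convert hF hx.2 hy.2 ha hb hab using 1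
      simp only [Submodule.coe_add, Submodule.coe_smul]
      module
  have hx1 := interior_subset hx0
  have hneg : -x0 ∈ f m := ⟨by simpa using hx1.2, by simpa using hx1.1⟩
  have h2 := hconv.combo_interior_self_mem_interior hx0 hneg (show (0 : ℝ) < 1 / 2 by norm_num)
    (show (0 : ℝ) ≤ 1 / 2 by norm_num) (by norm_num)
  rw [smul_neg, add_neg_cancel, mem_interior_iff_mem_nhds, Metric.mem_nhds_iff] at h2
  obtain ⟨ε, hε, hb⟩ := h2
  have hm : (0 : ℝ) < (m : ℝ) + 1 := by positivity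
  refine ⟨ε / ((m : ℝ) + 1), by positivity, fun w hw hn => ?_⟩
  have h3 : (((m : ℝ) + 1) • (⟨w, hw⟩ : P)) ∈ ball (0 : P) ε := by
    rw [mem_ball_zero_iff, norm_smul, Real.norm_of_nonneg hm.le]
    rw [lt_div_iff₀ hm] at hn
    have : ‖(⟨w, hw⟩ : P)‖ = ‖w‖ := rfl
    rw [this]
    linarith
  have h4 := (hb h3).1
  simp only [Submodule.coe_smul, smul_smul, inv_mul_cancel₀ hm.ne', one_smul] at h4
  exact h4

end

/-- The Euclidean inner product as a real bilinear map. -/
noncomputable def eucl (n : ℕ) : (Fin n → ℂ) →ₗ[ℝ] (Fin n → ℂ) →ₗ[ℝ] ℝ :=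
  LinearMap.mk₂ ℝ (fun s t => ∑ k, ((s k).re * (t k).re + (s k).im * (t k).im))
    (fun s s' t => by
      rw [← Finset.sum_add_distrib]
      exact Finset.sum_congr rfl fun k _ => by simp; ring)
    (fun c s t => by
      rw [smul_eq_mul, Finset.mul_sum]
      exact Finset.sum_congr rfl fun k _ => by simp; ring)
    (fun s t t' => by
      rw [← Finset.sum_add_distrib]
      exact Finset.sum_congr rfl fun k _ => by simp; ring)
    (fun c s t => by
      rw [smul_eq_mul, Finset.mul_sum]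
      exact Finset.sum_congr rfl fun k _ => by simp; ring)

theorem eucl_self {n : ℕ} (s : Fin n → ℂ) : eucl n s s = ∑ k, ‖s k‖ ^ 2 := by
  simp [eucl, Complex.sq_norm, Complex.normSq_apply]

theorem eucl_I {n : ℕ} (s : Fin n → ℂ) :
    eucl n (Complex.I • s) (Complex.I • s) = eucl n s s := by
  simp [eucl_self]

theorem eucl_pos {n : ℕ} {s : Fin n → ℂ} (hs : s ≠ 0) : 0 < eucl n s s := by
  obtain ⟨k, hk⟩ := Function.ne_iff.1 hs
  rw [eucl_self]
  refine Finset.sum_pos' (fun _ _ => by positivity) ⟨k, Finset.mem_univ _, ?_⟩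
  have : s k ≠ 0 := hk
  positivity

theorem eucl_le {n : ℕ} (s : Fin n → ℂ) : eucl n s s ≤ n * ‖s‖ ^ 2 := by
  rw [eucl_self]
  calc ∑ k, ‖s k‖ ^ 2 ≤ ∑ _k : Fin n, ‖s‖ ^ 2 :=
        Finset.sum_le_sum fun k _ => by
          have := norm_le_pi_norm s k
          gcongr
    _ = n * ‖s‖ ^ 2 := by simp

theorem cont_bilin {n : ℕ} (B : (Fin n → ℂ) →ₗ[ℝ] (Fin n → ℂ) →ₗ[ℝ] ℝ) :
    Continuous fun s => B s s := by
  have h1 : Continuous fun s =>
      ((LinearMap.toContinuousLinearMap (𝕜 := ℝ)).toLinearMap.comp B) s :=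
    LinearMap.continuous_of_finiteDimensional _
  exact h1.clm_apply continuous_id

end Pool.Agent.Lib.MP_f65947_an.Cvx
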