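import Pool.Agent.Lib.MP_f65947_an.ConvexB

/-! The main theorem in the convex case. -/

set_option autoImplicit false

open Set Filter Topology Metric

namespace Pool.Agent.Lib.MP_f65947_an.Cvx

/-- The largest complex subspace of a real subspace. -/
def cpart {n : ℕ} (V : Submodule ℝ (Fin n → ℂ)) : Submodule ℂ (Fin n → ℂ) where
  carrier := {v | ∀ c : ℂ, c • v ∈ V}
  zero_mem' := fun c => by simp
  add_mem' := fun hv hw c => by rw [smul_add]; exact V.add_mem (hv c) (hw c)
  smul_mem' := fun a v hv c => by rw [smul_smul]; exact hv _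

theorem mem_cpart {n : ℕ} {V : Submodule ℝ (Fin n → ℂ)} {v : Fin n → ℂ} (h1 : v ∈ V)
    (h2 : Complex.I • v ∈ V) : v ∈ cpart V := by
  intro c
  have e : c • v = c.re • v + c.im • Complex.I • v := by
    funext k
    simp only [Pi.smul_apply, smul_eq_mul, Pi.add_apply, Complex.real_smul]
    conv_lhs => rw [← Complex.re_add_im c]
    ring
  rw [e]
  exact V.add_mem (V.smul_mem _ h1) (V.smul_mem _ h2)

theorem convex_case (n q : ℕ) (U : Set (Fin n → ℂ)) (hU : IsOpen U) (ρ : (Fin n → ℂ) → ℝ)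
    (hρ : ContDiffOn ℝ 2 ρ U) (hconv : Convex ℝ {z | z ∈ U ∧ ρ z ≤ 0})
    (hnull : ∀ z ∈ U, ρ z = 0 → ∃ N : Submodule ℂ (Fin n → ℂ), q ≤ Module.finrank ℂ N ∧
      ∀ w ∈ N, fderiv ℝ ρ z w = 0 ∧ fderiv ℝ (fderiv ℝ ρ) z w w +
        fderiv ℝ (fderiv ℝ ρ) z (Complex.I • w) (Complex.I • w) = 0)
    (ζ : Fin n → ℂ) (hζ : ζ ∈ U) (h0 : ρ ζ = 0) (hd : fderiv ℝ ρ ζ ≠ 0) :
    ∃ W : Submodule ℂ (Fin n → ℂ), q ≤ Module.finrank ℂ W ∧
      ∃ ε : ℝ, 0 < ε ∧ ∀ w ∈ W, ‖w‖ < ε → ζ + w ∈ U ∧ ρ (ζ + w) = 0 := by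
  have hat : ∀ z ∈ U, ContDiffAt ℝ 2 ρ z := fun z hz => hρ.contDiffAt (hU.mem_nhds hz)
  set A := fderiv ℝ ρ ζ with hA
  let K : Set (Fin n → ℂ) := {s | ζ + s ∈ U ∧ ρ (ζ + s) ≤ 0}
  have hK : Convex ℝ K := by
    intro x hx y hy a b ha hb hab
    have := hconv (x := ζ + x) hx (y := ζ + y) hy ha hb hab
    have e : a • (ζ + x) + b • (ζ + y) = ζ + (a • x + b • y) := by
      have : ζ = a • ζ + b • ζ := by rw [← add_smul, hab, one_smul]
      conv_rhs => rw [this]
      module
    rw [e] at this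
    exact this
  have hK0 : (0 : Fin n → ℂ) ∈ K := ⟨by simpa using hζ, by simp [h0]⟩
  have hsup : ∀ s ∈ K, A s ≤ 0 := by
    intro s hs
    have hm : IsLocalMaxOn ρ {z | z ∈ U ∧ ρ z ≤ 0} ζ := by
      filter_upwards [self_mem_nhdsWithin] with z hz
      rw [h0]; exact hz.2
    refine hm.hasFDerivWithinAt_nonpos
      ((hat ζ hζ).differentiableAt (by simp)).hasFDerivAt.hasFDerivWithinAt ?_
    exact mem_posTangentConeAt_of_segment_subset (hconv.segment_subset ⟨hζ, h0.le⟩ hs)
  let F : Set (Fin n → ℂ) := {s | s ∈ K ∧ A s = 0}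
  have hF : Convex ℝ F := by
    intro x hx y hy a b ha hb hab
    exact ⟨hK hx.1 hy.1 ha hb hab, by simp [hx.2, hy.2]⟩
  have hF0 : (0 : Fin n → ℂ) ∈ F := ⟨hK0, by simp⟩
  obtain ⟨v0, hv0⟩ : ∃ v, 0 < A v := by
    by_contra h
    push Not at h
    apply hd
    ext v
    have h1 := h v
    have h2 := h (-v)
    rw [map_neg] at h2
    simp only [zero_apply]
    linarith
  have hFz : ∀ s ∈ F, ρ (ζ + s) = 0 := by
    intro s hs
    by_contra hne
    have hlt : ρ (ζ + s) < 0 := lt_of_le_of_ne hs.1.2 hne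
    have hc : Tendsto (fun t : ℝ => ζ + (s + t • v0)) (𝓝[>] 0) (𝓝 (ζ + s)) := by
      have : Continuous fun t : ℝ => ζ + (s + t • v0) := by fun_prop
      simpa using (this.tendsto 0).mono_left nhdsWithin_le_nhds
    have h1 := hc.eventually (hU.mem_nhds hs.1.1)
    have h2 := hc.eventually ((hat _ hs.1.1).continuousAt.eventually (gt_mem_nhds hlt))
    obtain ⟨t, ht1, ht2, ht3⟩ := (h1.and (h2.and self_mem_nhdsWithin)).exists
    have h3 := hsup (s + t • v0) ⟨ht1, ht2.le⟩
    rw [map_add, map_smul, hs.2, smul_eq_mul] at h3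
    have := mul_pos (show 0 < t from ht3) hv0
    linarith
  have hcl : ∀ r : ℝ, closedBall ζ r ⊆ U → IsClosed (K ∩ closedBall 0 r) := by
    intro r hr
    have hm : ∀ s ∈ closedBall (0 : Fin n → ℂ) r, ζ + s ∈ U := fun s hs =>
      hr (by simpa [mem_closedBall, dist_eq_norm] using hs)
    have hc : ContinuousOn (fun s => ρ (ζ + s)) (closedBall 0 r) :=
      hρ.continuousOn.comp (by fun_prop) hm
    have := hc.preimage_isClosed_of_isClosed isClosed_closedBall (isClosed_Iic (a := (0 : ℝ)))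
    convert this using 1
    ext s
    exact ⟨fun h => ⟨h.2, h.1.2⟩, fun h => ⟨⟨hm s h.1, h.2⟩, h.1⟩⟩
  set V := dirSub F hF hF0 with hV
  have hVA : ∀ v ∈ V, A v = 0 := by
    rintro v ⟨ε, hε, hv⟩
    have := (hv ε (by rw [abs_of_pos hε])).2
    rw [map_smul, smul_eq_mul] at this
    exact (mul_eq_zero.1 this).resolve_left hε.ne'
  refine ⟨cpart V, ?_, ?_⟩
  · by_contra hlt
    push Not at hlt
    obtain ⟨C, hC⟩ := (cpart V).exists_isCompl
    have hCr : ∀ (a : ℝ) (v), v ∈ C → a • v ∈ C := fun a v hv => C.smul_of_tower_mem a hv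
    obtain ⟨ν, hνC, hν⟩ : ∃ ν ∈ C, A ν < 0 := by
      have : -v0 ∈ cpart V ⊔ C := by rw [hC.sup_eq_top]; trivial
      obtain ⟨a, ha, b, hb, hab⟩ := Submodule.mem_sup.1 this
      refine ⟨b, hb, ?_⟩
      have h1 : A a = 0 := hVA a (by simpa using ha 1)
      have h2 := congrArg A hab
      rw [map_add, map_neg] at h2
      linarith
    have hν0 : ν ≠ 0 := by rintro rfl; simp at hν
    have hcd : ContinuousAt (fun z => fderiv ℝ ρ z ν) ζ :=
      ((hat ζ hζ).fderiv_right (m := 1) (by norm_num)).continuousAt.clm_apply continuousAt_const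
    obtain ⟨r, hr, hball⟩ := Metric.nhds_basis_closedBall.mem_iff.1
      (inter_mem (hU.mem_nhds hζ) (hcd.eventually (gt_mem_nhds hν)))
    have hrU : closedBall ζ r ⊆ U := fun z hz => (hball hz).1
    have hCc : IsClosed (C : Set (Fin n → ℂ)) := C.closed_of_finiteDimensional
    have hCv : Convex ℝ (C : Set (Fin n → ℂ)) := fun x hx y hy a b _ _ _ =>
      C.add_mem (hCr a x hx) (hCr b y hy)
    have hKc : IsCompact ((K ∩ closedBall 0 r) ∩ C) :=
      (isCompact_closedBall (0 : Fin n → ℂ) r).of_isClosed_subset ((hcl r hrU).inter hCc)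
        fun s hs => hs.1.2
    have hSig : IsCompact (((K ∩ closedBall 0 r) ∩ C) ∩ sphere 0 r) :=
      hKc.inter_right isClosed_sphere
    have hS : IsCompact ((((K ∩ closedBall 0 r) ∩ C) ∩ sphere 0 r) ∩ {s | A s = 0}) :=
      hSig.inter_right (isClosed_eq A.continuous continuous_const)
    obtain ⟨L, B, u, hu, hB, hneg⟩ := exists_neg (F ∩ C) (hF.inter hCv) ⟨hF0, C.zero_mem⟩ _ hS
      (fun s hs => ⟨⟨hs.1.1.1.1, hs.2⟩, hs.1.1.2⟩)
      (fun h => by
        have := h.1.2
        simp only [mem_sphere, dist_self] at this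
        exact hr.ne this)
      (by
        rintro v ⟨ε, hε, hv⟩ ⟨δ, hδ, hw⟩
        have h1 : v ∈ cpart V :=
          mem_cpart ⟨ε, hε, fun a ha => (hv a ha).1⟩ ⟨δ, hδ, fun a ha => (hw a ha).1⟩
        have h2 : v ∈ C := by
          have := hCr ε⁻¹ _ (hv ε (by rw [abs_of_pos hε])).2
          rwa [smul_smul, inv_mul_cancel₀ hε.ne', one_smul] at this
        exact (Submodule.disjoint_def.1 hC.disjoint) v h1 h2)
    set δ : ℝ := u / (2 * (n * r ^ 2 + 1)) with hδ
    have hδ0 : 0 < δ := by positivity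
    set B' := B + δ • eucl n with hB'
    have hB'app : ∀ s t, B' s t = B s t + δ * eucl n s t := fun s t => by simp [hB']
    have hB'pos : ∀ w, w ≠ 0 → 0 < B' w w + B' (Complex.I • w) (Complex.I • w) := by
      intro w hw
      rw [hB'app, hB'app, eucl_I]
      have h1 := hB w
      have h2 := mul_pos hδ0 (eucl_pos hw)
      linarith
    have hLc : Continuous L := L.continuous_of_finiteDimensional
    obtain ⟨M, hM⟩ := exists_mul hSig (g := fun s => L s + B' s s) (A := fun s => A s)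
      (hLc.add (cont_bilin B')) A.continuous (fun s hs => hsup s hs.1.1.1) (by
        intro s hs hs0
        have h1 := hneg s ⟨hs, hs0⟩
        have h2 := eucl_le s
        have h3 : ‖s‖ = r := by simpa using hs.2
        rw [h3] at h2
        have h4 : δ * (n * r ^ 2 + 1) = u / 2 := by
          rw [hδ]; field_simp
        rw [hB'app]
        nlinarith)
    obtain ⟨s0, hs0, hmax⟩ := hKc.exists_isMaxOn
      ⟨0, ⟨hK0, mem_closedBall_self hr.le⟩, C.zero_mem⟩
      (f := fun s => L s + B' s s + M * A s)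
      ((hLc.add (cont_bilin B')).add (continuous_const.mul A.continuous)).continuousOn
    have hs0r : ‖s0‖ < r := by
      have h1 : ‖s0‖ ≤ r := by simpa using hs0.1.2
      refine lt_of_le_of_ne h1 fun h2 => ?_
      have h3 := hM s0 ⟨hs0, by simpa using h2⟩
      have h4 := hmax ⟨⟨hK0, mem_closedBall_self hr.le⟩, C.zero_mem⟩
      simp only [mem_ofPred_eq, map_zero, mul_zero, add_zero] at h4
      linarith
    let L' : (Fin n → ℂ) →ₗ[ℝ] ℝ := L + M • A.toLinearMap + B' s0 + B'.flip s0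
    have hL' : ∀ x, L' x = L x + M * A x + B' s0 x + B' x s0 := fun x => by simp [L']
    have hzb : ζ + s0 ∈ closedBall ζ r := by simpa [mem_closedBall, dist_eq_norm] using hs0r.le
    have hzU : ζ + s0 ∈ U := hrU hzb
    have step : ∀ w ∈ C, ∀ c : ℝ,
        (∀ᶠ t : ℝ in 𝓝 0, ρ (ζ + s0 + (t • w + (c * t ^ 2) • ν)) ≤ 0) →
        c * L' ν + B' w w ≤ 0 := by
      intro w hw c h
      apply quad_coeff
      have hc : Tendsto (fun t : ℝ => s0 + (t • w + (c * t ^ 2) • ν)) (𝓝 0) (𝓝 s0) := by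
        have : Continuous fun t : ℝ => s0 + (t • w + (c * t ^ 2) • ν) := by fun_prop
        simpa using this.tendsto 0
      filter_upwards [h, hc.eventually (isOpen_ball.mem_nhds (mem_ball_zero_iff.2 hs0r))]
        with t h1 h2
      have hxC : t • w + (c * t ^ 2) • ν ∈ C := C.add_mem (hCr _ _ hw) (hCr _ _ hνC)
      generalize t • w + (c * t ^ 2) • ν = x at h1 h2 hxC
      have h3 : s0 + x ∈ closedBall (0 : Fin n → ℂ) r := ball_subset_closedBall h2
      have h4 : ζ + (s0 + x) ∈ U := hrU (by simpa [mem_closedBall, dist_eq_norm] using h3)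
      have h5 := hmax ⟨⟨⟨h4, by rwa [← add_assoc]⟩, h3⟩, C.add_mem hs0.2 hxC⟩
      simp only [mem_ofPred_eq, map_add, LinearMap.add_apply] at h5
      rw [hL']
      linarith
    rcases (hs0.1.1.2).eq_or_lt with hz | hz
    · obtain ⟨N, hN, hNw⟩ := hnull _ hzU hz
      obtain ⟨w, hw, hw0⟩ : ∃ w ∈ N ⊓ C, w ≠ 0 := by
        apply Submodule.exists_mem_ne_zero_of_ne_bot
        intro hbot
        have h1 := Submodule.finrank_sup_add_finrank_inf_eq N C
        have h2 := Submodule.finrank_add_eq_of_isCompl hC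
        have h3 := Submodule.finrank_le (N ⊔ C)
        rw [hbot, finrank_bot] at h1
        omega
      have hdν : fderiv ℝ ρ (ζ + s0) ν < 0 := (hball hzb).2
      set d := fderiv ℝ ρ (ζ + s0) ν with hdd
      have hκ := hB'pos w hw0
      have hall : ∀ η : ℝ, 0 < η →
          B' w w + B' (Complex.I • w) (Complex.I • w) ≤ η * (L' ν / d) := by
        intro η hη
        have one : ∀ x ∈ N ⊓ C,
            -(fderiv ℝ (fderiv ℝ ρ) (ζ + s0) x x + η) / (2 * d) * L' ν + B' x x ≤ 0 := by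
          intro x hx
          refine step x hx.2 _ (curve_nonpos (hat _ hzU) hz (hNw x hx.1).1 ?_)
          rw [← hdd]
          have : 2 * (-(fderiv ℝ (fderiv ℝ ρ) (ζ + s0) x x + η) / (2 * d)) * d =
              -(fderiv ℝ (fderiv ℝ ρ) (ζ + s0) x x + η) := by
            field_simp [hdν.ne]
          rw [this]
          linarith
        have h1 := one w hw
        have h2 := one (Complex.I • w) (Submodule.smul_mem _ _ hw)
        have h3 := (hNw w hw.1).2
        have h4 : -(fderiv ℝ (fderiv ℝ ρ) (ζ + s0) w w + η) / (2 * d) * L' ν +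
            -(fderiv ℝ (fderiv ℝ ρ) (ζ + s0) (Complex.I • w) (Complex.I • w) + η) / (2 * d) * L' ν
            = -(η * (L' ν / d)) := by
          have e : fderiv ℝ (fderiv ℝ ρ) (ζ + s0) (Complex.I • w) (Complex.I • w) =
              -fderiv ℝ (fderiv ℝ ρ) (ζ + s0) w w := by linarith
          rw [e]
          field_simp [hdν.ne]
          ring
        linarith
      set κ := B' w w + B' (Complex.I • w) (Complex.I • w)
      set b := L' ν / d
      have h1 := hall (κ / (2 * (|b| + 1))) (by positivity)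
      have h2 : κ / (2 * (|b| + 1)) * b ≤ κ / (2 * (|b| + 1)) * (|b| + 1) := by
        have := le_abs_self b
        gcongr
        linarith
      have h3 : κ / (2 * (|b| + 1)) * (|b| + 1) = κ / 2 := by field_simp
      linarith
    · have one : ∀ x ∈ C, B' x x ≤ 0 := by
        intro x hx
        have hc : Tendsto (fun t : ℝ => ζ + s0 + (t • x + (0 * t ^ 2) • ν)) (𝓝 0)
            (𝓝 (ζ + s0)) := by
          have : Continuous fun t : ℝ => ζ + s0 + (t • x + (0 * t ^ 2) • ν) := by fun_prop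
          simpa using this.tendsto 0
        have h2 := hc.eventually ((hat _ hzU).continuousAt.eventually (gt_mem_nhds hz))
        simpa using step x hx 0 (h2.mono fun t ht => ht.le)
      have h1 := one ν hνC
      have h2 := one (Complex.I • ν) (C.smul_mem _ hνC)
      have h3 := hB'pos ν hν0
      linarith
  · obtain ⟨r, hr, hrU⟩ := Metric.nhds_basis_closedBall.mem_iff.1 (hU.mem_nhds hζ)
    have hFc : IsClosed (F ∩ closedBall 0 r) := by
      have := (hcl r hrU).inter (isClosed_eq A.continuous (continuous_const (y := (0 : ℝ))))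
      convert this using 1
      ext s
      exact ⟨fun h => ⟨⟨h.1.1, h.2⟩, h.1.2⟩, fun h => ⟨⟨h.1.1, h.2⟩, h.1.2⟩⟩
    obtain ⟨ε, hε, hb⟩ := exists_ball (hF.inter (convex_closedBall 0 r))
      ⟨hF0, mem_closedBall_self hr.le⟩ hFc ((cpart V).restrictScalars ℝ) (by
        intro v hv
        obtain ⟨δ, hδ, hv⟩ : v ∈ V := by simpa using hv 1
        refine ⟨min δ (r / (‖v‖ + 1)), by positivity, fun a ha =>
          ⟨hv a (ha.trans (min_le_left _ _)), ?_⟩⟩
        have h1 := ha.trans (min_le_right _ _)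
        rw [le_div_iff₀ (by positivity)] at h1
        rw [mem_closedBall_zero_iff, norm_smul, Real.norm_eq_abs]
        nlinarith [abs_nonneg a, norm_nonneg v])
    refine ⟨ε, hε, fun w hw hn => ?_⟩
    have := (hb w hw hn).1
    exact ⟨this.1.1, hFz w this⟩

end Pool.Agent.Lib.MP_f65947_an.Cvx
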