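import Pool.Agent.Lib.MP_f65947_an.ConvexC

/-! Holomorphic changes of coordinates: the convexifiable case. -/

set_option autoImplicit false

open Set Filter Topology Metric

namespace Pool.Agent.Lib.MP_f65947_an.Cvx

section
variable {E : Type} [NormedAddCommGroup E] [NormedSpace ℝ E] [NormedSpace ℂ E]
  [IsScalarTower ℝ ℂ E]

theorem fderiv_comp_hol {ρ : E → ℝ} {Φ : E → E} {x : E} (hρ : DifferentiableAt ℝ ρ (Φ x))
    (hΦ : DifferentiableAt ℂ Φ x) (w : E) :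
    fderiv ℝ (fun y => ρ (Φ y)) x w = fderiv ℝ ρ (Φ x) (fderiv ℂ Φ x w) := by
  have := (hρ.hasFDerivAt.comp x (hΦ.hasFDerivAt.restrictScalars ℝ)).fderiv
  have e : (fun y => ρ (Φ y)) = ρ ∘ Φ := rfl
  rw [e, this]
  simp

theorem fderiv2_comp_hol {ρ : E → ℝ} {Φ : E → E} {x : E} (hρ : ContDiffAt ℝ 2 ρ (Φ x))
    (hΦ : ContDiffAt ℂ 2 Φ x) (v w : E) :
    fderiv ℝ (fderiv ℝ (fun y => ρ (Φ y))) x v w =
      fderiv ℝ (fderiv ℝ ρ) (Φ x) (fderiv ℂ Φ x v) (fderiv ℂ Φ x w) +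
        fderiv ℝ ρ (Φ x) (fderiv ℂ (fderiv ℂ Φ) x v w) := by
  have hΦd : DifferentiableAt ℂ Φ x := hΦ.differentiableAt (by simp)
  have hΦ1 : DifferentiableAt ℂ (fderiv ℂ Φ) x :=
    (hΦ.fderiv_right (m := 1) (by norm_num)).differentiableAt (by simp)
  have hρ1 : DifferentiableAt ℝ (fderiv ℝ ρ) (Φ x) :=
    (hρ.fderiv_right (m := 1) (by norm_num)).differentiableAt (by simp)
  have hc : ContDiffAt ℝ 2 (fun y => ρ (Φ y)) x := hρ.comp x (hΦ.restrict_scalars ℝ)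
  have hc1 : DifferentiableAt ℝ (fderiv ℝ (fun y => ρ (Φ y))) x :=
    (hc.fderiv_right (m := 1) (by norm_num)).differentiableAt (by simp)
  have ev1 : ∀ᶠ y in 𝓝 x, DifferentiableAt ℂ Φ y :=
    (hΦ.eventually (by simp)).mono fun y hy => hy.differentiableAt (by simp)
  have ev2 : ∀ᶠ y in 𝓝 x, DifferentiableAt ℝ ρ (Φ y) :=
    hΦ.continuousAt.eventually
      ((hρ.eventually (by simp)).mono fun y hy => hy.differentiableAt (by simp))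
  have e2 : (fun y => fderiv ℝ (fun y => ρ (Φ y)) y w) =ᶠ[𝓝 x]
      fun y => fderiv ℝ ρ (Φ y) (fderiv ℂ Φ y w) := by
    filter_upwards [ev1, ev2] with y h1 h2 using fderiv_comp_hol h2 h1 w
  have hL : HasFDerivAt (fun y => fderiv ℝ (fun y => ρ (Φ y)) y w)
      ((fderiv ℝ (fderiv ℝ (fun y => ρ (Φ y))) x).flip w) x := by
    have := hc1.hasFDerivAt.clm_apply (hasFDerivAt_const w x)
    simpa using this
  have hA : HasFDerivAt (fun y => fderiv ℝ ρ (Φ y))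
      ((fderiv ℝ (fderiv ℝ ρ) (Φ x)).comp ((fderiv ℂ Φ x).restrictScalars ℝ)) x :=
    hρ1.hasFDerivAt.comp x (hΦd.hasFDerivAt.restrictScalars ℝ)
  have hB : HasFDerivAt (fun y => fderiv ℂ Φ y w)
      (((fderiv ℂ (fderiv ℂ Φ) x).flip w).restrictScalars ℝ) x := by
    have := hΦ1.hasFDerivAt.clm_apply (hasFDerivAt_const w x)
    have h2 : HasFDerivAt (fun y => fderiv ℂ Φ y w) ((fderiv ℂ (fderiv ℂ Φ) x).flip w) x := by
      simpa using this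
    exact h2.restrictScalars ℝ
  have hR := (hA.clm_apply hB).congr_of_eventuallyEq e2
  have := congrArg (fun T => T v) (hL.unique hR)
  simp at this
  rw [this]
  ring

theorem levi_comp_hol {ρ : E → ℝ} {Φ : E → E} {x : E} (hρ : ContDiffAt ℝ 2 ρ (Φ x))
    (hΦ : ContDiffAt ℂ 2 Φ x) (w : E) :
    fderiv ℝ (fderiv ℝ (fun y => ρ (Φ y))) x w w +
      fderiv ℝ (fderiv ℝ (fun y => ρ (Φ y))) x (Complex.I • w) (Complex.I • w) =
      fderiv ℝ (fderiv ℝ ρ) (Φ x) (fderiv ℂ Φ x w) (fderiv ℂ Φ x w) +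
        fderiv ℝ (fderiv ℝ ρ) (Φ x) (Complex.I • fderiv ℂ Φ x w) (Complex.I • fderiv ℂ Φ x w) := by
  rw [fderiv2_comp_hol hρ hΦ, fderiv2_comp_hol hρ hΦ]
  have h : fderiv ℂ (fderiv ℂ Φ) x (Complex.I • w) (Complex.I • w) =
      - fderiv ℂ (fderiv ℂ Φ) x w w := by
    simp only [map_smul, smul_apply, smul_smul, Complex.I_mul_I, neg_one_smul]
  rw [h]
  simp only [map_smul, map_neg]
  ring

end

theorem convexifiable_case (n q : ℕ) (U V : Set (Fin n → ℂ)) (hU : IsOpen U) (hV : IsOpen V)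
    (ρ : (Fin n → ℂ) → ℝ) (hρ : ContDiffOn ℝ 2 ρ U)
    (Φ : (Fin n → ℂ) → (Fin n → ℂ)) (hΦ : AnalyticOnNhd ℂ Φ V) (hm : MapsTo Φ V U)
    (hb : ∀ x ∈ V, Function.Bijective (fderiv ℂ Φ x))
    (hconv : Convex ℝ {x | x ∈ V ∧ ρ (Φ x) ≤ 0})
    (hnull : ∀ z ∈ U, ρ z = 0 → ∃ N : Submodule ℂ (Fin n → ℂ), q ≤ Module.finrank ℂ N ∧
      ∀ w ∈ N, fderiv ℝ ρ z w = 0 ∧ fderiv ℝ (fderiv ℝ ρ) z w w +
        fderiv ℝ (fderiv ℝ ρ) z (Complex.I • w) (Complex.I • w) = 0)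
    (ξ : Fin n → ℂ) (hξ : ξ ∈ V) (h0 : ρ (Φ ξ) = 0) (hd : fderiv ℝ ρ (Φ ξ) ≠ 0) :
    ∃ W : Submodule ℂ (Fin n → ℂ), q ≤ Module.finrank ℂ W ∧
      ∃ ε : ℝ, 0 < ε ∧ ∀ w ∈ W, ‖w‖ < ε → ξ + w ∈ V ∧ ρ (Φ (ξ + w)) = 0 := by
  have hat : ∀ x ∈ V, ContDiffAt ℝ 2 ρ (Φ x) := fun x hx => hρ.contDiffAt (hU.mem_nhds (hm hx))
  have hΦat : ∀ x ∈ V, ContDiffAt ℂ 2 Φ x := fun x hx => (hΦ x hx).contDiffAt
  have h1 : ∀ x ∈ V, ∀ w, fderiv ℝ (fun y => ρ (Φ y)) x w = fderiv ℝ ρ (Φ x) (fderiv ℂ Φ x w) :=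
    fun x hx w => fderiv_comp_hol ((hat x hx).differentiableAt (by simp))
      ((hΦat x hx).differentiableAt (by simp)) w
  refine convex_case n q V hV (fun y => ρ (Φ y))
    (fun x hx => ((hat x hx).comp x ((hΦat x hx).restrict_scalars ℝ)).contDiffWithinAt)
    hconv ?_ ξ hξ h0 ?_
  · intro x hx hx0
    obtain ⟨N, hN, hNw⟩ := hnull (Φ x) (hm hx) hx0
    let e := LinearEquiv.ofBijective (fderiv ℂ Φ x).toLinearMap (hb x hx)
    refine ⟨N.map e.symm.toLinearMap, by rw [LinearEquiv.finrank_map_eq]; exact hN, ?_⟩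
    rintro w ⟨v, hv, rfl⟩
    have h2 : fderiv ℂ Φ x (e.symm.toLinearMap v) = v := e.apply_symm_apply v
    rw [h1 x hx, levi_comp_hol (hat x hx) (hΦat x hx), h2]
    exact hNw v hv
  · intro h
    apply hd
    ext v
    obtain ⟨w, rfl⟩ := (hb ξ hξ).2 v
    rw [← h1 ξ hξ, h]
    simp

end Pool.Agent.Lib.MP_f65947_an.Cvx
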