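import Mathlib

/-! Polynomial approximation of rational functions on compact sets with connected complement,
and the two approximations on a pair of rectangles that are used later. -/

set_option autoImplicit false

open Set Filter Topology Metric Polynomial

namespace Pool.Agent.Lib.MP_f65947_an.Fat

theorem runge {K : Set ℂ} (hK : IsCompact K) (hc : IsPreconnected Kᶜ) (p q : ℂ[X])
    (hp : ∀ s ∈ K, p.eval s ≠ 0) {δ : ℝ} (hδ : 0 < δ) :
    ∃ r : ℂ[X], ∀ s ∈ K, ‖r.eval s - q.eval s / p.eval s‖ < δ := by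
  rcases K.eq_empty_or_nonempty with rfl | ⟨s0, hs0⟩
  · exact ⟨0, by simp⟩
  have : CompactSpace K := isCompact_iff_compactSpace.1 hK
  let A : Subalgebra ℂ C(K, ℂ) := (polynomialFunctions K).topologicalClosure
  have hA : IsClosed (A : Set C(K, ℂ)) := Subalgebra.isClosed_topologicalClosure _
  have hmem : ∀ f : ℂ[X], toContinuousMapOnAlgHom K f ∈ A := fun f =>
    Subalgebra.le_topologicalClosure _ ⟨f, trivial, rfl⟩
  let x : A := ⟨toContinuousMapOnAlgHom K X, hmem X⟩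
  have hsp : spectrum ℂ (x : C(K, ℂ)) = K := by
    rw [ContinuousMap.spectrum_eq_range]
    ext s
    constructor
    · rintro ⟨t, rfl⟩
      simp [x]
    · intro hs
      exact ⟨⟨s, hs⟩, by simp [x]⟩
  have hsp2 : spectrum ℂ x = K := by
    rw [Subalgebra.spectrum_eq_of_isPreconnected_compl A x (by rw [hsp]; exact hc), hsp]
  have hp0 : p ≠ 0 := by
    rintro rfl
    exact hp s0 hs0 (by simp)
  have hu : IsUnit (aeval x p) := by
    by_contra hnu
    obtain ⟨k, hk, hk0⟩ := spectrum.exists_mem_of_not_isUnit_aeval_prod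
      (p := p) (a := x) (by
        have h1 := (IsAlgClosed.splits p).eq_prod_roots
        intro h2
        apply hnu
        rw [h1, map_mul, aeval_C]
        refine IsUnit.mul ?_ h2
        exact (IsUnit.mk0 _ (leadingCoeff_ne_zero.2 hp0)).map _)
    rw [hsp2] at hk
    exact hp k hk hk0
  have hval : ∀ (f : ℂ[X]) (s : K), ((aeval x f : A) : C(K, ℂ)) s = f.eval (s : ℂ) := by
    intro f s
    have h1 : ((aeval x f : A) : C(K, ℂ)) = aeval (x : C(K, ℂ)) f :=
      (aeval_algHom_apply A.val x f).symm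
    have h2 : aeval (x : C(K, ℂ)) f = toContinuousMapOnAlgHom K f := by
      have := aeval_algHom_apply (toContinuousMapOnAlgHom K) X f
      simpa [x] using this
    rw [h1, h2]
    simp
  obtain ⟨g, hg⟩ := hu.exists_right_inv
  have hcl : ((aeval x q * g : A) : C(K, ℂ)) ∈ closure (polynomialFunctions K : Set C(K, ℂ)) :=
    (aeval x q * g).2
  obtain ⟨f, hf, hd⟩ := Metric.mem_closure_iff.1 hcl δ hδ
  obtain ⟨r, -, rfl⟩ := hf
  refine ⟨r, fun s hs => ?_⟩
  have h1 := (ContinuousMap.dist_apply_le_dist (⟨s, hs⟩ : K)).trans_lt hd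
  have h2 : p.eval s * (g : C(K, ℂ)) ⟨s, hs⟩ = 1 := by
    have := congrArg (fun t : A => (t : C(K, ℂ)) ⟨s, hs⟩) hg
    simpa [hval] using this
  have h3 : (g : C(K, ℂ)) ⟨s, hs⟩ = (p.eval s)⁻¹ := (inv_eq_of_mul_eq_one_right h2).symm
  rw [dist_comm, dist_eq_norm] at h1
  simpa [hval, h3, div_eq_mul_inv] using h1

/-- Two rectangles, symmetric with respect to the imaginary axis. -/
def two (η S : ℝ) : Set ℂ := {s | η ≤ |s.re| ∧ |s.re| ≤ S ∧ |s.im| ≤ S}

theorem two_compact (η S : ℝ) : IsCompact (two η S) := by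
  refine Metric.isCompact_of_isClosed_isBounded ?_ ?_
  · have h1 : IsClosed {s : ℂ | η ≤ |s.re|} := isClosed_le continuous_const (by fun_prop)
    have h2 : IsClosed {s : ℂ | |s.re| ≤ S} := isClosed_le (by fun_prop) continuous_const
    have h3 : IsClosed {s : ℂ | |s.im| ≤ S} := isClosed_le (by fun_prop) continuous_const
    exact h1.inter (h2.inter h3)
  · refine (isBounded_closedBall (x := (0 : ℂ)) (r := S + S)).subset fun s hs => ?_
    rw [mem_closedBall_zero_iff]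
    exact (Complex.norm_le_abs_re_add_abs_im s).trans (add_le_add hs.2.1 hs.2.2)

theorem two_compl {η S : ℝ} (hη : 0 < η) (_hS : 0 ≤ S) : IsPreconnected (two η S)ᶜ := by
  have c0 : Convex ℝ ({s : ℂ | -η < s.re} ∩ {s : ℂ | s.re < η}) :=
    (convex_halfSpace_re_gt _).inter (convex_halfSpace_re_lt _)
  have c1 := convex_halfSpace_im_gt S
  have c2 := convex_halfSpace_im_lt (-S)
  have c3 := convex_halfSpace_re_gt S
  have c4 := convex_halfSpace_re_lt (-S)
  have h1 := IsPreconnected.union (⟨0, S + 1⟩ : ℂ) (by simpa using hη) (by simp)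
    c0.isPreconnected c1.isPreconnected
  have h2 := IsPreconnected.union (⟨0, -S - 1⟩ : ℂ) (Or.inl (by simpa using hη)) (by simp)
    h1 c2.isPreconnected
  have h3 := IsPreconnected.union (⟨S + 1, S + 1⟩ : ℂ) (Or.inl (Or.inr (by simp))) (by simp)
    h2 c3.isPreconnected
  have h4 := IsPreconnected.union (⟨-S - 1, S + 1⟩ : ℂ) (Or.inl (Or.inl (Or.inr (by simp))))
    (by simp) h3 c4.isPreconnected
  convert h4 using 1
  ext s
  simp only [two, mem_compl_iff, mem_ofPred_eq, mem_union, mem_inter_iff, not_and_or, not_le,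
    abs_lt, lt_abs]
  constructor
  · rintro (h | (h | h) | h | h)
    · exact Or.inl (Or.inl (Or.inl (Or.inl h)))
    · exact Or.inl (Or.inr h)
    · exact Or.inr (by linarith)
    · exact Or.inl (Or.inl (Or.inl (Or.inr h)))
    · exact Or.inl (Or.inl (Or.inr (by linarith)))
  · rintro ((((h | h) | h) | h) | h)
    · exact Or.inl h
    · exact Or.inr (Or.inr (Or.inl h))
    · exact Or.inr (Or.inr (Or.inr (by linarith)))
    · exact Or.inr (Or.inl (Or.inl h))
    · exact Or.inr (Or.inl (Or.inr (by linarith)))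

theorem quot_small {u v : ℂ} {t : ℝ} (hv : v ≠ 0) (ht : t ≤ 1 / 2) (h : ‖u‖ ≤ t * ‖v‖) :
    v + u ≠ 0 ∧ ‖u / (v + u)‖ ≤ 2 * t := by
  have h0 : 0 < ‖v‖ := norm_pos_iff.2 hv
  have h1 : ‖v‖ ≤ ‖v + u‖ + ‖u‖ := by
    have := norm_sub_le (v + u) u
    simpa using this
  have h2 : ‖v‖ / 2 ≤ ‖v + u‖ := by nlinarith
  have h3 : 0 < ‖v + u‖ := by linarith
  refine ⟨norm_pos_iff.1 h3, ?_⟩
  rw [norm_div, div_le_iff₀ h3]
  have ht0 : 0 ≤ t := by
    by_contra hh
    push Not at hh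
    nlinarith [norm_nonneg u]
  nlinarith

theorem exists_ratio {η S : ℝ} (hη : 0 < η) (hS : 0 ≤ S) :
    ∃ κ : ℝ, 0 ≤ κ ∧ κ < 1 ∧ ∀ s : ℂ, η ≤ s.re → |s.re| ≤ S → |s.im| ≤ S →
      ‖s - 1‖ ≤ κ * ‖s + 1‖ := by
  set B : ℝ := (S + 1) ^ 2 + S ^ 2 + 4 * η with hB
  have hB0 : 0 < B := by positivity
  have h1 : 4 * η / B ≤ 1 := by
    rw [div_le_one hB0]; nlinarith
  have h2 : 0 < 4 * η / B := by positivity
  refine ⟨Real.sqrt (1 - 4 * η / B), Real.sqrt_nonneg _, ?_, fun s h3 h4 h5 => ?_⟩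
  · rw [Real.sqrt_lt' one_pos]; linarith
  · apply le_of_sq_le_sq _ (by positivity)
    rw [mul_pow, Real.sq_sqrt (by linarith), Complex.sq_norm, Complex.sq_norm,
      Complex.normSq_apply, Complex.normSq_apply]
    simp only [Complex.sub_re, Complex.one_re, Complex.sub_im, Complex.one_im, Complex.add_re,
      Complex.add_im, sub_zero, add_zero]
    obtain ⟨a1, a2⟩ := abs_le.1 h4
    obtain ⟨b1, b2⟩ := abs_le.1 h5
    have h6 : (s.re + 1) * (s.re + 1) + s.im * s.im ≤ B := by nlinarith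
    have h7 : 4 * η / B * ((s.re + 1) * (s.re + 1) + s.im * s.im) ≤ 4 * η := by
      calc _ ≤ 4 * η / B * B := by gcongr
        _ = 4 * η := by field_simp
    nlinarith

theorem exists_step {η S δ : ℝ} (hη : 0 < η) (hS : 0 ≤ S) (hδ : 0 < δ) :
    ∃ θ : ℂ[X], ∀ s : ℂ, |s.re| ≤ S → |s.im| ≤ S →
      (η ≤ s.re → ‖θ.eval s‖ ≤ δ) ∧ (s.re ≤ -η → ‖θ.eval s - 1‖ ≤ δ) := by
  obtain ⟨κ, k0, k1, hκ⟩ := exists_ratio hη hS
  obtain ⟨m, hm⟩ := exists_pow_lt_of_lt_one (show 0 < min (δ / 4) (1 / 2) by positivity) k1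
  have m1 : κ ^ m ≤ δ / 4 := (hm.trans_le (min_le_left _ _)).le
  have m2 : κ ^ m ≤ 1 / 2 := (hm.trans_le (min_le_right _ _)).le
  have right : ∀ s : ℂ, η ≤ s.re → |s.re| ≤ S → |s.im| ≤ S →
      (s + 1) ^ m + (s - 1) ^ m ≠ 0 ∧
        ‖(s - 1) ^ m / ((s + 1) ^ m + (s - 1) ^ m)‖ ≤ 2 * κ ^ m := by
    intro s h1 h2 h3
    refine quot_small (pow_ne_zero _ fun h => ?_) m2 ?_
    · have := congrArg Complex.re h
      simp at this
      linarith
    · rw [norm_pow, norm_pow, ← mul_pow]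
      exact pow_le_pow_left₀ (norm_nonneg _) (hκ s h1 h2 h3) m
  have left : ∀ s : ℂ, s.re ≤ -η → |s.re| ≤ S → |s.im| ≤ S →
      (s - 1) ^ m + (s + 1) ^ m ≠ 0 ∧
        ‖(s + 1) ^ m / ((s - 1) ^ m + (s + 1) ^ m)‖ ≤ 2 * κ ^ m := by
    intro s h1 h2 h3
    refine quot_small (pow_ne_zero _ fun h => ?_) m2 ?_
    · have := congrArg Complex.re h
      simp at this
      linarith
    · rw [norm_pow, norm_pow, ← mul_pow]
      have := hκ (-s) (by simp; linarith) (by simpa using h2) (by simpa using h3)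
      rw [show -s - 1 = -(s + 1) by ring, show -s + 1 = -(s - 1) by ring, norm_neg,
        norm_neg] at this
      exact pow_le_pow_left₀ (norm_nonneg _) this m
  obtain ⟨θ, hθ⟩ := runge (two_compact η S) (two_compl hη hS)
    ((X + 1) ^ m + (X - 1) ^ m) ((X - 1) ^ m) (by
      intro s hs
      simp only [eval_add, eval_pow, eval_X, eval_one, eval_sub]
      rcases le_abs.1 hs.1 with h | h
      · exact (right s h hs.2.1 hs.2.2).1
      · rw [add_comm]
        exact (left s (by linarith) hs.2.1 hs.2.2).1) (show 0 < δ / 2 by positivity)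
  simp only [eval_add, eval_pow, eval_X, eval_one, eval_sub] at hθ
  refine ⟨θ, fun s h2 h3 => ⟨fun h1 => ?_, fun h1 => ?_⟩⟩
  · have a := hθ s ⟨le_abs.2 (Or.inl h1), h2, h3⟩
    have b := (right s h1 h2 h3).2
    have c := norm_add_le (θ.eval s - (s - 1) ^ m / ((s + 1) ^ m + (s - 1) ^ m))
      ((s - 1) ^ m / ((s + 1) ^ m + (s - 1) ^ m))
    rw [sub_add_cancel] at c
    linarith
  · have a := hθ s ⟨le_abs.2 (Or.inr (by linarith)), h2, h3⟩
    obtain ⟨b0, b⟩ := left s h1 h2 h3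
    have c := norm_sub_le (θ.eval s - (s - 1) ^ m / ((s + 1) ^ m + (s - 1) ^ m))
      ((s + 1) ^ m / ((s - 1) ^ m + (s + 1) ^ m))
    have e : θ.eval s - (s - 1) ^ m / ((s + 1) ^ m + (s - 1) ^ m) -
        (s + 1) ^ m / ((s - 1) ^ m + (s + 1) ^ m) = θ.eval s - 1 := by
      rw [add_comm ((s + 1) ^ m) ((s - 1) ^ m), sub_sub, ← add_div, div_self b0]
    rw [e] at c
    linarith

theorem exists_recip {τ T δ : ℝ} (hτ : 0 < τ) (hT : 0 < T) (hδ : 0 < δ) :
    ∃ r : ℂ[X], ∀ x : ℂ, τ ≤ |x.re| → ‖x‖ ≤ T → ‖x * r.eval x - 1‖ ≤ δ := by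
  have hne : ∀ x : ℂ, τ ≤ |x.re| → x ≠ 0 := by
    rintro x hx rfl
    simp at hx
    linarith
  obtain ⟨r, hr⟩ := runge (two_compact τ T) (two_compl hτ hT.le) X 1
    (fun s hs => by simpa using hne s hs.1) (show 0 < δ / T by positivity)
  refine ⟨r, fun x h1 h2 => ?_⟩
  have a := hr x ⟨h1, (Complex.abs_re_le_norm x).trans h2, (Complex.abs_im_le_norm x).trans h2⟩
  simp only [eval_one, eval_X] at a
  have e : x * r.eval x - 1 = x * (r.eval x - 1 / x) := by
    field_simp [hne x h1]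
  rw [e, norm_mul]
  calc ‖x‖ * ‖r.eval x - 1 / x‖ ≤ T * (δ / T) := by gcongr
    _ = δ := by field_simp

end Pool.Agent.Lib.MP_f65947_an.Fat
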