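import Mathlib

/-! A smooth radial subharmonic function on the plane that vanishes exactly on the closed unit
disc and is harmonic off an annulus; the chain rule for the complex Hessian. -/

set_option autoImplicit false

open Set Filter Topology
open scoped ContDiff

namespace Pool.Agent.Lib.MP_f65947_an

noncomputable def theta (x : ℝ) : ℝ := Real.smoothTransition (x - 1) * x⁻¹

theorem theta_contDiff : ContDiff ℝ ∞ theta := by
  rw [contDiff_iff_contDiffAt]
  intro x
  by_cases hx : x = 0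
  · have : theta =ᶠ[𝓝 x] fun _ => 0 := by
      have : Iio (1 : ℝ) ∈ 𝓝 x := Iio_mem_nhds (by rw [hx]; norm_num)
      filter_upwards [this] with y hy
      have : y - 1 ≤ 0 := by simp only [mem_Iio] at hy; linarith
      simp [theta, Real.smoothTransition.zero_of_nonpos this]
    exact contDiffAt_const.congr_of_eventuallyEq this
  · unfold theta
    refine ContDiffAt.mul ?_ (contDiffAt_inv ℝ hx)
    exact (Real.smoothTransition.contDiff.comp (contDiff_id.sub contDiff_const)).contDiffAt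

theorem mul_theta (x : ℝ) : x * theta x = Real.smoothTransition (x - 1) := by
  by_cases hx : x = 0
  · subst hx
    simp [Real.smoothTransition.zero_of_nonpos]
  · unfold theta
    field_simp

theorem theta_nonneg {x : ℝ} (hx : 0 ≤ x) : 0 ≤ theta x :=
  mul_nonneg (Real.smoothTransition.nonneg _) (inv_nonneg.2 hx)

theorem theta_pos {x : ℝ} (hx : 1 < x) : 0 < theta x :=
  mul_pos (Real.smoothTransition.pos_of_pos (by linarith)) (inv_pos.2 (by linarith))

theorem theta_add (x : ℝ) :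
    theta x + x * deriv theta x = deriv Real.smoothTransition (x - 1) := by
  have h1 : HasDerivAt (fun y => y * theta y) (1 * theta x + x * deriv theta x) x :=
    (hasDerivAt_id x).mul (theta_contDiff.differentiable (by simp) x).hasDerivAt
  have h2 : HasDerivAt (fun y => Real.smoothTransition (y - 1))
      (deriv Real.smoothTransition (x - 1)) x := by
    have := ((Real.smoothTransition.contDiff (n := ⊤)).differentiable (by simp)
      (x - 1)).hasDerivAt
    exact this.comp_sub_const x 1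
  have e : (fun y => y * theta y) = fun y => Real.smoothTransition (y - 1) := funext mul_theta
  rw [e] at h1
  have := h1.unique h2
  linarith

theorem deriv_st_nonneg (y : ℝ) : 0 ≤ deriv Real.smoothTransition y :=
  Real.smoothTransition.monotone.deriv_nonneg

theorem deriv_st_zero {y : ℝ} (hy : y ≤ 0 ∨ 1 ≤ y) : deriv Real.smoothTransition y = 0 := by
  rcases hy with hy | hy
  · apply IsLocalMin.deriv_eq_zero
    refine Eventually.of_forall fun z => ?_
    rw [Real.smoothTransition.zero_of_nonpos hy]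
    exact Real.smoothTransition.nonneg z
  · apply IsLocalMax.deriv_eq_zero
    refine Eventually.of_forall fun z => ?_
    rw [Real.smoothTransition.one_of_one_le hy]
    exact Real.smoothTransition.le_one z

noncomputable def prof (r : ℝ) : ℝ := ∫ x in (0 : ℝ)..r, theta x

theorem prof_hasDerivAt (r : ℝ) : HasDerivAt prof (theta r) r :=
  (theta_contDiff.continuous.integral_hasStrictDerivAt 0 r).hasDerivAt

theorem deriv_prof : deriv prof = theta := funext fun r => (prof_hasDerivAt r).deriv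

theorem prof_contDiff : ContDiff ℝ ∞ prof := by
  rw [contDiff_infty_iff_deriv, deriv_prof]
  exact ⟨fun r => (prof_hasDerivAt r).differentiableAt, theta_contDiff⟩

theorem prof_nonneg {r : ℝ} (hr : 0 ≤ r) : 0 ≤ prof r :=
  intervalIntegral.integral_nonneg hr fun _ hx => theta_nonneg hx.1

theorem prof_pos {r : ℝ} (hr : 1 < r) : 0 < prof r := by
  have h : StrictMonoOn prof (Ici 1) := by
    apply strictMonoOn_of_deriv_pos (convex_Ici 1) prof_contDiff.continuous.continuousOn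
    intro x hx
    rw [interior_Ici] at hx
    rw [deriv_prof]
    exact theta_pos hx
  exact lt_of_le_of_lt (prof_nonneg zero_le_one) (h (mem_Ici.2 le_rfl) (mem_Ici.2 hr.le) hr)

noncomputable def psi (s : ℂ) : ℝ := prof (‖s‖ ^ 2)

theorem psi_contDiff : ContDiff ℝ ∞ psi :=
  prof_contDiff.comp (contDiff_norm_sq ℝ)

theorem psi_nonneg (s : ℂ) : 0 ≤ psi s := prof_nonneg (by positivity)

theorem psi_zero : psi 0 = 0 := by simp [psi, prof]

theorem norm_le_one_of_psi_eq_zero {s : ℂ} (h : psi s = 0) : ‖s‖ ≤ 1 := by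
  by_contra hs
  push Not at hs
  have : 1 < ‖s‖ ^ 2 := by nlinarith
  exact (prof_pos this).ne' h

theorem fderiv_psi (s : ℂ) : fderiv ℝ psi s = theta (‖s‖ ^ 2) • (2 • innerSL ℝ s) := by
  have h1 : HasFDerivAt (fun x : ℂ => ‖x‖ ^ 2) (2 • innerSL ℝ s) s :=
    (hasStrictFDerivAt_norm_sq s).hasFDerivAt
  exact ((prof_hasDerivAt (‖s‖ ^ 2)).comp_hasFDerivAt s h1).fderiv

theorem fderiv2_psi (s a : ℂ) : fderiv ℝ (fderiv ℝ psi) s a a =
    deriv theta (‖s‖ ^ 2) * (2 * inner ℝ s a) ^ 2 + theta (‖s‖ ^ 2) * (2 * ‖a‖ ^ 2) := by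
  have e : fderiv ℝ psi = fun s => theta (‖s‖ ^ 2) • (2 • innerSL ℝ s) := funext fderiv_psi
  have h1 : HasFDerivAt (fun x : ℂ => ‖x‖ ^ 2) (2 • innerSL ℝ s) s :=
    (hasStrictFDerivAt_norm_sq s).hasFDerivAt
  have h2 : HasFDerivAt (fun x : ℂ => theta (‖x‖ ^ 2))
      (deriv theta (‖s‖ ^ 2) • (2 • innerSL ℝ s)) s := by
    have h0 : HasDerivAt theta (deriv theta (‖s‖ ^ 2)) (‖s‖ ^ 2) :=
      (theta_contDiff.differentiable (by simp) (‖s‖ ^ 2)).hasDerivAt
    exact h0.comp_hasFDerivAt s h1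
  have h3 : HasFDerivAt (fun x : ℂ => (2 • innerSL ℝ x : ℂ →L[ℝ] ℝ))
      (2 • (innerSL ℝ : ℂ →L[ℝ] ℂ →L[ℝ] ℝ)) s :=
    ((innerSL ℝ : ℂ →L[ℝ] ℂ →L[ℝ] ℝ).hasFDerivAt (x := s)).const_smul 2
  rw [e, (h2.fun_smul h3).fderiv]
  have h4 : ((innerSL ℝ : ℂ →L[ℝ] ℂ →L[ℝ] ℝ) a) a = ‖a‖ ^ 2 := real_inner_self_eq_norm_sq a
  simp
  linear_combination 2 * theta (‖s‖ ^ 2) * h4

theorem levi_psi (s a : ℂ) :
    fderiv ℝ (fderiv ℝ psi) s a a + fderiv ℝ (fderiv ℝ psi) s (Complex.I * a) (Complex.I * a) =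
      4 * ‖a‖ ^ 2 * deriv Real.smoothTransition (‖s‖ ^ 2 - 1) := by
  rw [fderiv2_psi, fderiv2_psi, ← theta_add]
  have h : (inner ℝ s a) ^ 2 + (inner ℝ s (Complex.I * a)) ^ 2 = ‖s‖ ^ 2 * ‖a‖ ^ 2 := by
    simp only [Complex.inner, Complex.sq_norm, Complex.normSq_apply]
    simp
    ring
  have h' : ‖Complex.I * a‖ = ‖a‖ := by simp
  rw [h']
  linear_combination 4 * deriv theta (‖s‖ ^ 2) * h

theorem levi_psi_nonneg (s a : ℂ) :
    0 ≤ fderiv ℝ (fderiv ℝ psi) s a a +
      fderiv ℝ (fderiv ℝ psi) s (Complex.I * a) (Complex.I * a) := by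
  rw [levi_psi]
  have := deriv_st_nonneg (‖s‖ ^ 2 - 1)
  positivity

theorem levi_psi_zero (s a : ℂ) (h : ‖s‖ ≤ 1 ∨ 2 ≤ ‖s‖ ∨ a = 0) :
    fderiv ℝ (fderiv ℝ psi) s a a +
      fderiv ℝ (fderiv ℝ psi) s (Complex.I * a) (Complex.I * a) = 0 := by
  rw [levi_psi]
  have h0 := norm_nonneg s
  rcases h with h | h | h
  · rw [deriv_st_zero (Or.inl (by nlinarith)), mul_zero]
  · rw [deriv_st_zero (Or.inr (by nlinarith)), mul_zero]
  · simp [h]

variable {E : Type*} [NormedAddCommGroup E] [NormedSpace ℝ E] [NormedSpace ℂ E]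
  [IsScalarTower ℝ ℂ E]

theorem fderiv2_comp (φ : ℂ → ℝ) (hφ : ContDiff ℝ 2 φ) (Q : E → ℂ) (hQ : ContDiff ℂ 2 Q)
    (x v w : E) :
    fderiv ℝ (fderiv ℝ (fun y => φ (Q y))) x v w =
      fderiv ℝ (fderiv ℝ φ) (Q x) (fderiv ℂ Q x v) (fderiv ℂ Q x w) +
        fderiv ℝ φ (Q x) (fderiv ℂ (fderiv ℂ Q) x v w) := by
  have hQd : Differentiable ℂ Q := hQ.differentiable (by simp)
  have hφd : Differentiable ℝ φ := hφ.differentiable (by simp)
  have hQ1 : Differentiable ℂ (fderiv ℂ Q) :=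
    (hQ.fderiv_right (m := 1) (by norm_num)).differentiable (by simp)
  have hφ1 : Differentiable ℝ (fderiv ℝ φ) :=
    (hφ.fderiv_right (m := 1) (by norm_num)).differentiable (by simp)
  have hc : ContDiff ℝ 2 (fun y => φ (Q y)) := hφ.comp (hQ.restrict_scalars ℝ)
  have hc1 : Differentiable ℝ (fderiv ℝ (fun y => φ (Q y))) :=
    (hc.fderiv_right (m := 1) (by norm_num)).differentiable (by simp)
  have e1 : ∀ y, fderiv ℝ (fun y => φ (Q y)) y w = fderiv ℝ φ (Q y) (fderiv ℂ Q y w) := by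
    intro y
    have := ((hφd (Q y)).hasFDerivAt.comp y ((hQd y).hasFDerivAt.restrictScalars ℝ)).fderiv
    have e : (fun y => φ (Q y)) = φ ∘ Q := rfl
    rw [e, this]
    simp
  have hL : HasFDerivAt (fun y => fderiv ℝ (fun y => φ (Q y)) y w)
      ((fderiv ℝ (fderiv ℝ (fun y => φ (Q y))) x).flip w) x := by
    have := (hc1 x).hasFDerivAt.clm_apply (hasFDerivAt_const w x)
    simpa using this
  have hA : HasFDerivAt (fun y => fderiv ℝ φ (Q y))
      ((fderiv ℝ (fderiv ℝ φ) (Q x)).comp ((fderiv ℂ Q x).restrictScalars ℝ)) x :=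
    (hφ1 (Q x)).hasFDerivAt.comp x ((hQd x).hasFDerivAt.restrictScalars ℝ)
  have hB : HasFDerivAt (fun y => fderiv ℂ Q y w)
      (((fderiv ℂ (fderiv ℂ Q) x).flip w).restrictScalars ℝ) x := by
    have := (hQ1 x).hasFDerivAt.clm_apply (hasFDerivAt_const w x)
    have h2 : HasFDerivAt (fun y => fderiv ℂ Q y w) ((fderiv ℂ (fderiv ℂ Q) x).flip w) x := by
      simpa using this
    exact h2.restrictScalars ℝ
  have hR := hA.clm_apply hB
  have e2 : (fun y => fderiv ℝ (fun y => φ (Q y)) y w) =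
      fun y => fderiv ℝ φ (Q y) (fderiv ℂ Q y w) := funext e1
  rw [e2] at hL
  have := congrArg (fun T => T v) (hL.unique hR)
  simp at this
  rw [this]
  ring

theorem levi_comp (φ : ℂ → ℝ) (hφ : ContDiff ℝ 2 φ) (Q : E → ℂ) (hQ : ContDiff ℂ 2 Q)
    (x w : E) :
    fderiv ℝ (fderiv ℝ (fun y => φ (Q y))) x w w +
      fderiv ℝ (fderiv ℝ (fun y => φ (Q y))) x (Complex.I • w) (Complex.I • w) =
      fderiv ℝ (fderiv ℝ φ) (Q x) (fderiv ℂ Q x w) (fderiv ℂ Q x w) +
        fderiv ℝ (fderiv ℝ φ) (Q x) (Complex.I * fderiv ℂ Q x w) (Complex.I * fderiv ℂ Q x w) := by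
  rw [fderiv2_comp φ hφ Q hQ, fderiv2_comp φ hφ Q hQ]
  have h : fderiv ℂ (fderiv ℂ Q) x (Complex.I • w) (Complex.I • w) =
      - fderiv ℂ (fderiv ℂ Q) x w w := by
    simp only [map_smul, smul_apply, smul_eq_mul]
    rw [← mul_assoc, Complex.I_mul_I]
    ring
  rw [h]
  simp only [map_smul, smul_eq_mul, map_neg]
  ring

end Pool.Agent.Lib.MP_f65947_an
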