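import Mathlib

/-! Summation of a sequence of compactly supported smooth functions with small coefficients. -/

set_option autoImplicit false

open Set Filter Topology
open scoped ContDiff

namespace Pool.Agent.Lib.MP_f65947_an

variable {E : Type*} [NormedAddCommGroup E] [NormedSpace ℝ E]

theorem exists_small_coeff (g : E → ℝ) (hg : ContDiff ℝ ∞ g) (hc : HasCompactSupport g)
    (n : ℕ) (δ : ℝ) (hδ : 0 < δ) :
    ∃ r : ℝ, 0 < r ∧ ∀ i ≤ n, ∀ x, ‖iteratedFDeriv ℝ i (r • g) x‖ ≤ δ := by
  have : ∀ i, ∃ R, ∀ x, ‖iteratedFDeriv ℝ i g x‖ ≤ R := by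
    intro i
    have : BddAbove (range fun x => ‖iteratedFDeriv ℝ i g x‖) := by
      apply (hg.continuous_iteratedFDeriv
        (mod_cast le_top)).norm.bddAbove_range_of_hasCompactSupport
      apply HasCompactSupport.comp_left _ norm_zero
      apply hc.iteratedFDeriv
    rcases this with ⟨R, hR⟩
    exact ⟨R, fun x => hR (mem_range_self _)⟩
  choose R hR using this
  let M := max (((Finset.range (n + 1)).image R).max' (by simp)) 1
  have hM : 0 < M := lt_of_lt_of_le one_pos (le_max_right _ _)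
  have IR : ∀ i ≤ n, R i ≤ M := by
    intro i hi
    refine le_trans ?_ (le_max_left _ _)
    apply Finset.le_max'
    apply Finset.mem_image_of_mem
    simp only [Finset.mem_range]
    omega
  refine ⟨M⁻¹ * δ, by positivity, fun i hi x => ?_⟩
  calc
    ‖iteratedFDeriv ℝ i ((M⁻¹ * δ) • g) x‖ = ‖(M⁻¹ * δ) • iteratedFDeriv ℝ i g x‖ := by
      rw [iteratedFDeriv_const_smul_apply]
      exact hg.contDiffAt.of_le (mod_cast le_top)
    _ = M⁻¹ * δ * ‖iteratedFDeriv ℝ i g x‖ := by
      rw [norm_smul _ (iteratedFDeriv ℝ i g x), Real.norm_of_nonneg]; positivity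
    _ ≤ M⁻¹ * δ * M := by gcongr; exact (hR i x).trans (IR i hi)
    _ = δ := by field_simp

theorem exists_smooth_sum (g : ℕ → E → ℝ) (hg : ∀ n, ContDiff ℝ ∞ (g n))
    (hc : ∀ n, HasCompactSupport (g n)) :
    ∃ r : ℕ → ℝ, (∀ n, 0 < r n) ∧ ∃ F : E → ℝ, ContDiff ℝ ∞ F ∧
      (∀ x, HasSum (fun n => r n * g n x) (F x)) ∧
      (∀ x, ‖fderiv ℝ F x‖ ≤ 1 / 2) ∧
      (∀ x v w, HasSum (fun n => r n * fderiv ℝ (fderiv ℝ (g n)) x v w)
        (fderiv ℝ (fderiv ℝ F) x v w)) := by
  let δ : ℕ → ℝ := fun n => (1 / 2) / 2 / 2 ^ n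
  have δpos : ∀ n, 0 < δ n := fun n => by positivity
  have δsum : HasSum δ (1 / 2) := hasSum_geometric_two' _
  choose r rpos hr using fun n => exists_small_coeff (g n) (hg n) (hc n) (n + 2) (δ n) (δpos n)
  have hf : ∀ n, ContDiff ℝ ∞ (r n • g n) := fun n => (hg n).const_smul (r n)
  have hf2 : ∀ n, ContDiff ℝ ((2 : ℕ∞) : WithTop ℕ∞) (r n • g n) := fun n =>
    (hf n).of_le (by exact_mod_cast le_top)
  have hb : ∀ (k : ℕ) (i : ℕ) (x : E), (k : ℕ∞) ≤ 2 →
      ‖iteratedFDeriv ℝ k (r i • g i) x‖ ≤ δ i := by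
    intro k i x hk
    have : k ≤ 2 := by exact_mod_cast hk
    exact hr i k (by omega) x
  have hS : ∀ (k : ℕ), k ≤ 2 → ∀ x, Summable fun n => iteratedFDeriv ℝ k (r n • g n) x := by
    intro k hk x
    exact .of_norm_bounded δsum.summable fun n => hr n k (by omega) x
  have hD : ∀ (k : ℕ), k ≤ 2 → ∀ x, iteratedFDeriv ℝ k (fun y => ∑' n, (r n • g n) y) x =
      ∑' n, iteratedFDeriv ℝ k (r n • g n) x := by
    intro k hk x
    exact iteratedFDeriv_tsum_apply (N := 2) (v := fun _ => δ) hf2 (fun _ _ => δsum.summable) hb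
      (by exact_mod_cast hk) x
  refine ⟨r, rpos, fun x => ∑' n, (r n • g n) x, ?_, ?_, ?_, ?_⟩
  · apply contDiff_tsum_of_eventually (N := ⊤) (v := fun _ => δ) hf (fun _ _ => δsum.summable)
    intro k _
    rw [Nat.cofinite_eq_atTop]
    filter_upwards [eventually_ge_atTop k] with n hn x
    exact hr n k (by omega) x
  · intro x
    have : Summable fun n => (r n • g n) x := by
      refine .of_norm_bounded δsum.summable fun n => ?_
      simpa only [norm_iteratedFDeriv_zero] using hr n 0 (by omega) x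
    simpa using this.hasSum
  · intro x
    rw [← norm_iteratedFDeriv_one, hD 1 (by norm_num) x]
    exact tsum_of_norm_bounded δsum fun n => hr n 1 (by omega) x
  · intro x v w
    have h1 := (hS 2 le_rfl x).hasSum
    rw [← hD 2 le_rfl x] at h1
    have h2 := ContinuousMultilinearMap.hasSum_eval h1 ![v, w]
    simp only [iteratedFDeriv_two_apply, Matrix.cons_val_zero, Matrix.cons_val_one] at h2
    suffices h : (fun n => r n * fderiv ℝ (fderiv ℝ (g n)) x v w) =
        fun n => fderiv ℝ (fderiv ℝ (r n • g n)) x v w by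
      rw [h]; exact h2
    funext n
    have e1 : fderiv ℝ (r n • g n) = r n • fderiv ℝ (g n) := by
      funext y
      exact fderiv_const_smul ((hg n).differentiable (by simp) y) (r n)
    have hd : DifferentiableAt ℝ (fderiv ℝ (g n)) x :=
      (((hg n).fderiv_right (m := 1) (by norm_cast)).differentiable (by simp)) x
    rw [e1, fderiv_const_smul hd]
    simp

end Pool.Agent.Lib.MP_f65947_an
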