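import Pool.Agent.Lib.MP_f65947_an.FatA
import Pool.Agent.Lib.MP_f65947_an.Series
import Pool.Agent.Lib.MP_f65947_an.Psi

/-! Nested sets `Re p k ≤ 0` of almost full measure that avoid a dense family of hyperplanes. -/

set_option autoImplicit false

open Set Filter Topology Metric MeasureTheory
open scoped ContDiff ENNReal

namespace Pool.Agent.Lib.MP_f65947_an.Fat

theorem contDiff_eval (r : Polynomial ℂ) : ContDiff ℂ ∞ fun x : ℂ => r.eval x := by
  have := r.contDiff_aeval (𝕜 := ℂ) ∞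
  simpa using this

theorem exists_next {n : ℕ} (p : (Fin n → ℂ) → ℂ) (hp : ContDiff ℂ ∞ p) (j : Fin n) (a : ℂ)
    {τ : ℝ} (hτ : 0 < τ) :
    ∃ p' : (Fin n → ℂ) → ℂ, ContDiff ℂ ∞ p' ∧ ∀ z ∈ ball (0 : Fin n → ℂ) 1,
      (0 ≤ (p z).re → 1 ≤ (p' z).re) ∧ (z j = a → 1 ≤ (p' z).re) ∧
      ((p z).re ≤ -1 → τ ≤ |(z j - a).re| → (p' z).re ≤ -1) := by
  have hx : ContDiff ℂ ∞ fun z : Fin n → ℂ => z j - a :=
    (contDiff_apply ℂ ℂ j).sub contDiff_const
  obtain ⟨r, hr⟩ := exists_recip hτ (show 0 < 1 + ‖a‖ by positivity)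
    (show (0 : ℝ) < 1 / 16 by norm_num)
  have hg : ContDiff ℂ ∞ fun z : Fin n → ℂ => (z j - a) * r.eval (z j - a) :=
    hx.mul ((contDiff_eval r).comp hx)
  obtain ⟨G, hG⟩ := (isCompact_closedBall (0 : Fin n → ℂ) 1).exists_bound_of_continuousOn
    hg.continuous.continuousOn
  obtain ⟨S, hS⟩ := (isCompact_closedBall (0 : Fin n → ℂ) 1).exists_bound_of_continuousOn
    (hp.add (contDiff_const (c := (1 / 2 : ℂ)))).continuous.continuousOn
  have hG0 : 0 ≤ G := (norm_nonneg _).trans (hG 0 (mem_closedBall_self zero_le_one))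
  have hS0 : 0 ≤ S := (norm_nonneg _).trans (hS 0 (mem_closedBall_self zero_le_one))
  obtain ⟨θ, hθ⟩ := exists_step (show (0 : ℝ) < 1 / 2 by norm_num) hS0
    (show 0 < 1 / (16 * (G + 1)) by positivity)
  refine ⟨fun z => 2 - 4 * ((z j - a) * r.eval (z j - a) * θ.eval (p z + 1 / 2)),
    contDiff_const.sub (contDiff_const.mul
      (hg.mul ((contDiff_eval θ).comp (hp.add contDiff_const)))), fun z hz => ?_⟩
  have hz' := ball_subset_closedBall hz
  obtain ⟨t1, t2⟩ := hθ (p z + 1 / 2) ((Complex.abs_re_le_norm _).trans (hS z hz'))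
    ((Complex.abs_im_le_norm _).trans (hS z hz'))
  have hre : (p z + 1 / 2).re = (p z).re + 1 / 2 := by simp
  have key : ∀ c : ℂ, (2 - 4 * c).re = 2 - 4 * c.re := fun c => by simp
  have hδ : 1 / (16 * (G + 1)) ≤ 1 / 16 := by
    apply one_div_le_one_div_of_le <;> linarith
  refine ⟨fun h => ?_, fun h => ?_, fun h h' => ?_⟩
  · have h1 := t1 (by rw [hre]; linarith)
    have h2 := hG z hz'
    have h3 : ‖(z j - a) * r.eval (z j - a) * θ.eval (p z + 1 / 2)‖ ≤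
        G * (1 / (16 * (G + 1))) := by
      rw [norm_mul]
      gcongr
    have h4 : G * (1 / (16 * (G + 1))) ≤ 1 / 16 := by
      rw [mul_one_div, div_le_iff₀ (by positivity)]
      linarith
    have h5 := Complex.re_le_norm ((z j - a) * r.eval (z j - a) * θ.eval (p z + 1 / 2))
    rw [key]
    linarith
  · simp [h]
  · have h1 := (t2 (by rw [hre]; linarith)).trans hδ
    have h2 := hr (z j - a) h' ((norm_sub_le _ _).trans (by
      have := (norm_le_pi_norm z j).trans (mem_ball_zero_iff.1 hz).le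
      linarith))
    rw [key]
    generalize (z j - a) * r.eval (z j - a) = u at h2
    generalize θ.eval (p z + 1 / 2) = v at h1
    have e : u * v = 1 + ((u - 1) + (v - 1) + (u - 1) * (v - 1)) := by ring
    have h3 : ‖(u - 1) + (v - 1) + (u - 1) * (v - 1)‖ ≤ 1 / 16 + 1 / 16 + 1 / 16 * (1 / 16) := by
      refine (norm_add_le _ _).trans (add_le_add ((norm_add_le _ _).trans (add_le_add h2 h1)) ?_)
      rw [norm_mul]
      gcongr
    have h4 := (abs_le.1 ((Complex.abs_re_le_norm _).trans h3)).1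
    rw [e, Complex.add_re, Complex.one_re]
    linarith

theorem exists_strip {n : ℕ} (j : Fin n) (a : ℂ) {ε : ℝ≥0∞} (hε : 0 < ε) :
    ∃ τ : ℝ, 0 < τ ∧ volume (ball (0 : Fin n → ℂ) 1 ∩ {z | |(z j - a).re| < τ}) < ε := by
  have hlim := tendsto_measure_biInter_gt (μ := (volume : Measure (Fin n → ℂ))) (a := (0 : ℝ))
    (s := fun τ => ball (0 : Fin n → ℂ) 1 ∩ {z | |(z j - a).re| < τ})
    (fun τ _ => (isOpen_ball.inter (isOpen_lt (by fun_prop) continuous_const)).nullMeasurableSet)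
    (fun i k _ hik z hz => ⟨hz.1, lt_of_lt_of_le hz.2 hik⟩)
    ⟨1, one_pos, ((measure_mono inter_subset_left).trans_lt measure_ball_lt_top).ne⟩
  have hnull : volume (⋂ τ > (0 : ℝ), ball (0 : Fin n → ℂ) 1 ∩ {z | |(z j - a).re| < τ}) = 0 := by
    let L : (Fin n → ℂ) →ₗ[ℝ] ℝ := Complex.reLm.comp (LinearMap.proj j)
    let A : AffineSubspace ℝ (Fin n → ℂ) :=
      (AffineSubspace.mk' a.re (⊥ : Submodule ℝ ℝ)).comap L.toAffineMap
    have hA : ∀ z, z ∈ A ↔ (z j).re = a.re := by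
      intro z
      simp [A, L, AffineSubspace.mem_mk', sub_eq_zero]
    refine measure_mono_null (t := (A : Set (Fin n → ℂ))) (fun z hz => ?_)
      (Measure.addHaar_affineSubspace _ A fun h => ?_)
    · refine (hA z).2 ?_
      by_contra hne
      have h1 : 0 < |(z j - a).re| := abs_pos.2 (by simpa [sub_eq_zero] using hne)
      simp only [mem_iInter] at hz
      have h2 : |(z j - a).re| < |(z j - a).re| := (hz _ h1).2
      exact lt_irrefl _ h2
    · have : (fun _ => a + 1 : Fin n → ℂ) ∈ A := by rw [h]; trivial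
      simpa using (hA _).1 this
  rw [hnull] at hlim
  obtain ⟨τ, h1, h2⟩ := ((hlim.eventually (gt_mem_nhds hε)).and self_mem_nhdsWithin).exists
  exact ⟨τ, h2, h1⟩

theorem const_of_omit {g : ℂ → ℂ} (hg : DifferentiableOn ℂ g (ball 0 1)) {D : Set ℂ}
    (hD : Dense D) (h : ∀ t ∈ ball (0 : ℂ) 1, g t ∉ D) : ∀ t ∈ ball (0 : ℂ) 1, g t = g 0 := by
  rcases (hg.analyticOnNhd isOpen_ball).is_constant_or_isOpen
    (convex_ball (0 : ℂ) 1).isPreconnected with ⟨w, hw⟩ | ho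
  · intro t ht
    rw [hw t ht, hw 0 (mem_ball_self one_pos)]
  · obtain ⟨x, ⟨t, ht, rfl⟩, hx⟩ := hD.inter_open_nonempty _ (ho _ Subset.rfl isOpen_ball)
      ⟨g 0, 0, mem_ball_self one_pos, rfl⟩
    exact absurd hx (h t ht)

theorem exists_family {n : ℕ} (hn : 1 ≤ n) {ε : ℝ≥0∞} (hε : 0 < ε) :
    ∃ (Q : ℕ → (Fin n → ℂ) → ℂ) (E : Set (Fin n → ℂ)), (∀ k, ContDiff ℂ ∞ (Q k)) ∧ IsClosed E ∧
      volume (ball (0 : Fin n → ℂ) 1 \ E) < ε ∧
      (∀ k, ∀ z ∈ ball (0 : Fin n → ℂ) 1, ‖Q (k + 1) z‖ < 2 → ‖Q k z‖ ≤ 1) ∧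
      (∀ k, ∀ z ∈ ball (0 : Fin n → ℂ) 1, z ∈ E → ‖Q k z‖ ≤ 1) ∧
      ∀ f : ℂ → (Fin n → ℂ), DifferentiableOn ℂ f (ball 0 1) →
        (∀ t ∈ ball (0 : ℂ) 1, f t ∈ ball (0 : Fin n → ℂ) 1 ∧ ∀ k, ‖Q k (f t)‖ ≤ 1) →
        ∀ t ∈ ball (0 : ℂ) 1, f t = f 0 := by
  have : Nonempty (Fin n) := ⟨⟨0, hn⟩⟩
  obtain ⟨c, hc⟩ := exists_surjective_nat (Fin n × ℕ)
  let a : ℕ → ℂ := fun k => TopologicalSpace.denseSeq ℂ (c k).2
  obtain ⟨δ, δ0, hδ⟩ := ENNReal.exists_pos_sum_of_countable' hε.ne' ℕ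
  choose τ τ0 hτ using fun k => exists_strip (c k).1 (a k) (δ0 k)
  choose nx hnx1 hnx2 using fun (k : ℕ) (p : (Fin n → ℂ) → ℂ) (hp : ContDiff ℂ ∞ p) =>
    exists_next p hp (c k).1 (a k) (τ0 k)
  let P : ℕ → {p : (Fin n → ℂ) → ℂ // ContDiff ℂ ∞ p} := fun k =>
    Nat.rec ⟨fun _ => -1, contDiff_const⟩ (fun k p => ⟨nx k p.1 p.2, hnx1 k p.1 p.2⟩) k
  have hP : ∀ k, ∀ z ∈ ball (0 : Fin n → ℂ) 1,
      (0 ≤ ((P k).1 z).re → 1 ≤ ((P (k + 1)).1 z).re) ∧
      (z (c k).1 = a k → 1 ≤ ((P (k + 1)).1 z).re) ∧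
      (((P k).1 z).re ≤ -1 → τ k ≤ |(z (c k).1 - a k).re| → ((P (k + 1)).1 z).re ≤ -1) :=
    fun k => hnx2 k (P k).1 (P k).2
  have big : ∀ w : ℂ, 1 ≤ w.re → 2 ≤ ‖Complex.exp w‖ := by
    intro w hw
    rw [Complex.norm_exp]
    have := Real.add_one_le_exp w.re
    linarith
  have small : ∀ w : ℂ, w.re ≤ 0 → ‖Complex.exp w‖ ≤ 1 := by
    intro w hw
    rw [Complex.norm_exp]
    exact Real.exp_le_one_iff.2 hw
  refine ⟨fun k z => Complex.exp ((P k).1 z), ⋂ k, {z | τ k ≤ |(z (c k).1 - a k).re|},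
    fun k => (P k).2.cexp, isClosed_iInter fun k => isClosed_le continuous_const (by fun_prop),
    ?_, ?_, ?_, ?_⟩
  · refine lt_of_le_of_lt ?_ hδ
    refine le_trans (measure_mono ?_) ((measure_iUnion_le
      fun k => ball (0 : Fin n → ℂ) 1 ∩ {z | |(z (c k).1 - a k).re| < τ k}).trans
        (ENNReal.tsum_le_tsum fun k => (hτ k).le))
    rintro z ⟨h1, h2⟩
    simp only [mem_iInter, mem_ofPred_eq, not_forall, not_le] at h2
    obtain ⟨k, hk⟩ := h2
    exact mem_iUnion.2 ⟨k, h1, hk⟩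
  · intro k z hz h
    apply small
    by_contra h1
    push Not at h1
    have := big _ ((hP k z hz).1 h1.le)
    linarith
  · intro k z hz hE
    apply small
    have : ((P k).1 z).re ≤ -1 := by
      induction k with
      | zero => simp [P]
      | succ k ih => exact (hP k z hz).2.2 ih (mem_iInter.1 hE k)
    linarith
  · intro f hf hin t ht
    funext j
    refine const_of_omit (g := fun s => f s j) (differentiableOn_pi.1 hf j)
      (TopologicalSpace.denseRange_denseSeq ℂ) ?_ t ht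
    rintro s hs ⟨m, hm⟩
    obtain ⟨k, hk⟩ := hc (j, m)
    have h1 := big _ ((hP k (f s) (hin s hs).1).2.1 (by simp only [a, hk]; exact hm.symm))
    have h2 := (hin s hs).2 (k + 1)
    linarith

end Pool.Agent.Lib.MP_f65947_an.Fat
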