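import Pool.Agent.Lib.MP_f65947_an.FatB

/-! A smooth pseudoconvex rigid hypersurface of Levi rank at most one such that the points lying
on nonconstant holomorphic discs have arbitrarily small measure. -/

set_option autoImplicit false

open Set Filter Topology Metric MeasureTheory
open scoped ContDiff ENNReal

namespace Pool.Agent.Lib.MP_f65947_an.Fat

theorem psi_eq_zero {s : ℂ} (h : ‖s‖ ≤ 1) : psi s = 0 := by
  have h2 : ‖s‖ ^ 2 ≤ 1 := pow_le_one₀ (norm_nonneg _) h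
  have h0 : 0 ≤ ‖s‖ ^ 2 := by positivity
  unfold psi prof
  rw [intervalIntegral.integral_congr (g := fun _ => 0), intervalIntegral.integral_zero]
  intro x hx
  rw [uIcc_of_le h0] at hx
  have : x - 1 ≤ 0 := by linarith [hx.2]
  simp [theta, Real.smoothTransition.zero_of_nonpos this]

/-- A sum of potentials of nested lemniscates. -/
theorem exists_potential {n : ℕ} (Q : ℕ → (Fin n → ℂ) → ℂ) (hQ : ∀ k, ContDiff ℂ ∞ (Q k))
    (hstep : ∀ k, ∀ z ∈ ball (0 : Fin n → ℂ) 1, ‖Q (k + 1) z‖ < 2 → ‖Q k z‖ ≤ 1) :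
    ∃ u : (Fin n → ℂ) → ℝ, ContDiff ℝ ∞ u ∧ ∀ z ∈ ball (0 : Fin n → ℂ) 1,
      0 ≤ u z ∧ (u z = 0 ↔ ∀ k, ‖Q k z‖ ≤ 1) ∧
      (∀ w, 0 ≤ fderiv ℝ (fderiv ℝ u) z w w +
        fderiv ℝ (fderiv ℝ u) z (Complex.I • w) (Complex.I • w)) ∧
      ∃ B : (Fin n → ℂ) →L[ℂ] ℂ, ∀ w, B w = 0 → fderiv ℝ (fderiv ℝ u) z w w +
        fderiv ℝ (fderiv ℝ u) z (Complex.I • w) (Complex.I • w) = 0 := by
  let bump : ContDiffBump (0 : Fin n → ℂ) := ⟨1, 2, by norm_num, by norm_num⟩
  let term : ℕ → (Fin n → ℂ) → ℝ := fun k x => bump x * psi (Q k x)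
  have teq : ∀ k, ∀ x ∈ ball (0 : Fin n → ℂ) 1, term k x = psi (Q k x) := fun k x hx => by
    simp only [term]
    rw [bump.one_of_mem_closedBall (ball_subset_closedBall hx), one_mul]
  obtain ⟨r, rpos, F, hF, hsum, -, hD2⟩ := exists_smooth_sum term
    (fun k => bump.contDiff.mul (psi_contDiff.comp ((hQ k).restrict_scalars ℝ)))
    (fun k => bump.hasCompactSupport.mul_right)
  refine ⟨F, hF, fun z hz => ?_⟩
  have nested : ∀ j k, j < k → ‖Q k z‖ < 2 → ‖Q j z‖ ≤ 1 := by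
    intro j k hjk h
    induction k with
    | zero => omega
    | succ k ih =>
      have h1 := hstep k z hz h
      rcases Nat.lt_succ_iff_lt_or_eq.1 hjk with h2 | h2
      · exact ih h2 (by linarith)
      · rw [h2]; exact h1
  obtain ⟨k0, hk0⟩ : ∃ k0, ∀ k, k ≠ k0 → ‖Q k z‖ ≤ 1 ∨ 2 ≤ ‖Q k z‖ := by
    by_cases h : ∃ k0, 1 < ‖Q k0 z‖ ∧ ‖Q k0 z‖ < 2
    · obtain ⟨k0, h1, h2⟩ := h
      refine ⟨k0, fun k hk => ?_⟩
      rcases lt_or_gt_of_ne hk with h3 | h3
      · exact Or.inl (nested k k0 h3 h2)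
      · right
        by_contra h4
        push Not at h4
        have := nested k0 k h3 h4
        linarith
    · push Not at h
      refine ⟨0, fun k _ => ?_⟩
      by_cases h1 : ‖Q k z‖ ≤ 1
      · exact Or.inl h1
      · exact Or.inr (h k (not_le.1 h1))
  have hL : ∀ w : Fin n → ℂ, HasSum (fun k => r k *
      (fderiv ℝ (fderiv ℝ psi) (Q k z) (fderiv ℂ (Q k) z w) (fderiv ℂ (Q k) z w) +
        fderiv ℝ (fderiv ℝ psi) (Q k z) (Complex.I * fderiv ℂ (Q k) z w)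
          (Complex.I * fderiv ℂ (Q k) z w)))
      (fderiv ℝ (fderiv ℝ F) z w w + fderiv ℝ (fderiv ℝ F) z (Complex.I • w) (Complex.I • w)) := by
    intro w
    have := (hD2 z w w).add (hD2 z (Complex.I • w) (Complex.I • w))
    simp only [← mul_add] at this
    convert this using 3 with k
    have h : term k =ᶠ[𝓝 z] fun y => psi (Q k y) := by
      filter_upwards [isOpen_ball.mem_nhds hz] with y hy using teq k y hy
    rw [h.fderiv.fderiv_eq]
    exact (levi_comp psi (psi_contDiff.of_le (by norm_cast)) (Q k)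
      ((hQ k).of_le (by norm_cast)) z w).symm
  have hnn : ∀ k, 0 ≤ r k * term k z := fun k => by
    rw [teq k z hz]
    exact mul_nonneg (rpos k).le (psi_nonneg _)
  refine ⟨(hsum z).nonneg hnn, ⟨fun h k => ?_, fun h => ?_⟩, fun w => ?_,
    fderiv ℂ (Q k0) z, fun w hw => ?_⟩
  · have h3 : r k * term k z ≤ F z := le_hasSum (hsum z) k fun j _ => hnn j
    rw [h, teq k z hz] at h3
    apply norm_le_one_of_psi_eq_zero
    have h4 := psi_nonneg (Q k z)
    have h5 := rpos k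
    nlinarith
  · have h1 := hsum z
    have h0 : (fun k => r k * term k z) = fun _ => 0 := by
      funext k
      rw [teq k z hz, psi_eq_zero (h k), mul_zero]
    rw [h0] at h1
    exact h1.unique hasSum_zero
  · exact (hL w).nonneg fun k => mul_nonneg (rpos k).le (levi_psi_nonneg _ _)
  · have h := hL w
    have h0 : (fun k => r k *
      (fderiv ℝ (fderiv ℝ psi) (Q k z) (fderiv ℂ (Q k) z w) (fderiv ℂ (Q k) z w) +
        fderiv ℝ (fderiv ℝ psi) (Q k z) (Complex.I * fderiv ℂ (Q k) z w)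
          (Complex.I * fderiv ℂ (Q k) z w))) = fun _ => 0 := by
      funext k
      rw [levi_psi_zero, mul_zero]
      by_cases hk : k = k0
      · subst hk; exact Or.inr (Or.inr hw)
      · rcases hk0 k hk with h | h
        · exact Or.inl h
        · exact Or.inr (Or.inl h)
    rw [h0] at h
    exact h.unique hasSum_zero

section
variable {E : Type} [NormedAddCommGroup E] [NormedSpace ℝ E]

theorem fderiv_rigid {u : E → ℝ} (hu : ContDiff ℝ ∞ u) (x : E × ℂ) :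
    fderiv ℝ (fun y : E × ℂ => u y.1 - y.2.re) x =
      (fderiv ℝ u x.1).comp (ContinuousLinearMap.fst ℝ E ℂ) -
        Complex.reCLM.comp (ContinuousLinearMap.snd ℝ E ℂ) := by
  have h1 := (hu.differentiable (by simp) x.1).hasFDerivAt.comp x
    (ContinuousLinearMap.fst ℝ E ℂ).hasFDerivAt
  have h2 := (Complex.reCLM.comp (ContinuousLinearMap.snd ℝ E ℂ)).hasFDerivAt (x := x)
  exact (h1.sub h2).fderiv

theorem fderiv2_rigid {u : E → ℝ} (hu : ContDiff ℝ ∞ u) (x v w : E × ℂ) :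
    fderiv ℝ (fderiv ℝ (fun y : E × ℂ => u y.1 - y.2.re)) x v w =
      fderiv ℝ (fderiv ℝ u) x.1 v.1 w.1 := by
  have e : fderiv ℝ (fun y : E × ℂ => u y.1 - y.2.re) = fun x =>
      (fderiv ℝ u x.1).comp (ContinuousLinearMap.fst ℝ E ℂ) -
        Complex.reCLM.comp (ContinuousLinearMap.snd ℝ E ℂ) := funext (fderiv_rigid hu)
  have hd : DifferentiableAt ℝ (fderiv ℝ u) x.1 :=
    ((hu.fderiv_right (m := 1) (by norm_cast)).differentiable (by simp)) x.1
  have h1 := (hd.hasFDerivAt.comp x (ContinuousLinearMap.fst ℝ E ℂ).hasFDerivAt).clm_comp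
    (hasFDerivAt_const (ContinuousLinearMap.fst ℝ E ℂ) x)
  have h2 := (h1.sub_const (Complex.reCLM.comp (ContinuousLinearMap.snd ℝ E ℂ))).fderiv
  rw [e]
  simp only [Function.comp_def] at h2
  rw [h2]
  simp

end

theorem exists_nullspace {n : ℕ} (A : (Fin n → ℂ) →L[ℝ] ℝ) (B : (Fin n → ℂ) →L[ℂ] ℂ) :
    ∃ N : Submodule ℂ ((Fin n → ℂ) × ℂ), n - 1 ≤ Module.finrank ℂ N ∧
      ∀ w ∈ N, A w.1 - w.2.re = 0 ∧ B w.1 = 0 := by
  let α : Module.Dual ℂ (Fin n → ℂ) := Module.Dual.extendRCLike A.toLinearMap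
  have hα : ∀ v, (α v).re = A v := fun v =>
    Module.Dual.re_extendRCLike_apply (𝕜 := ℂ) A.toLinearMap v
  let T : (Fin n → ℂ) →ₗ[ℂ] (Fin n → ℂ) × ℂ := LinearMap.prod LinearMap.id α
  have hT : Function.Injective T := fun x y h => congrArg Prod.fst h
  refine ⟨(LinearMap.ker B.toLinearMap).map T, ?_, ?_⟩
  · rw [← (Submodule.equivMapOfInjective T hT _).finrank_eq]
    have h1 := LinearMap.finrank_range_add_finrank_ker B.toLinearMap
    have h2 := Submodule.finrank_le (LinearMap.range B.toLinearMap)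
    simp only [Module.finrank_self, Module.finrank_fintype_fun_eq_card, Fintype.card_fin] at h1 h2
    omega
  · rintro w ⟨v, hv, rfl⟩
    exact ⟨by simp [T, hα], hv⟩

theorem fat_example {n : ℕ} (hn : 1 ≤ n) {ε : ℝ≥0∞} (hε : 0 < ε) :
    ∃ (u : (Fin n → ℂ) → ℝ) (E : Set (Fin n → ℂ)), ContDiff ℝ ∞ u ∧ IsClosed E ∧
      volume (ball (0 : Fin n → ℂ) 1 \ E) < ε ∧
      (∀ x : (Fin n → ℂ) × ℂ, fderiv ℝ (fun y : (Fin n → ℂ) × ℂ => u y.1 - y.2.re) x ≠ 0) ∧
      (∀ x : (Fin n → ℂ) × ℂ, x.1 ∈ ball (0 : Fin n → ℂ) 1 →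
        (∀ w, 0 ≤ fderiv ℝ (fderiv ℝ (fun y : (Fin n → ℂ) × ℂ => u y.1 - y.2.re)) x w w +
          fderiv ℝ (fderiv ℝ (fun y : (Fin n → ℂ) × ℂ => u y.1 - y.2.re)) x
            (Complex.I • w) (Complex.I • w)) ∧
        ∃ N : Submodule ℂ ((Fin n → ℂ) × ℂ), n - 1 ≤ Module.finrank ℂ N ∧ ∀ w ∈ N,
          fderiv ℝ (fun y : (Fin n → ℂ) × ℂ => u y.1 - y.2.re) x w = 0 ∧
          fderiv ℝ (fderiv ℝ (fun y : (Fin n → ℂ) × ℂ => u y.1 - y.2.re)) x w w +
            fderiv ℝ (fderiv ℝ (fun y : (Fin n → ℂ) × ℂ => u y.1 - y.2.re)) x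
              (Complex.I • w) (Complex.I • w) = 0) ∧
      ∀ f : ℂ → (Fin n → ℂ) × ℂ, DifferentiableOn ℂ f (ball 0 1) → (f 0).1 ∈ E →
        (∀ t ∈ ball (0 : ℂ) 1, (f t).1 ∈ ball (0 : Fin n → ℂ) 1 ∧ u (f t).1 - (f t).2.re = 0) →
        ∀ t ∈ ball (0 : ℂ) 1, f t = f 0 := by
  obtain ⟨Q, E, hQ, hE, hvol, hstep, hin, hdisc⟩ := exists_family hn hε
  obtain ⟨u, hu, h⟩ := exists_potential Q hQ hstep
  refine ⟨u, E, hu, hE, hvol, fun x hx => ?_, fun x hx => ⟨fun w => ?_, ?_⟩, ?_⟩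
  · rw [fderiv_rigid hu] at hx
    have := congrArg (fun T => T ((0 : Fin n → ℂ), (1 : ℂ))) hx
    simp at this
  · rw [fderiv2_rigid hu, fderiv2_rigid hu]
    exact (h x.1 hx).2.2.1 w.1
  · obtain ⟨B, hB⟩ := (h x.1 hx).2.2.2
    obtain ⟨N, hN, hNw⟩ := exists_nullspace (fderiv ℝ u x.1) B
    refine ⟨N, hN, fun w hw => ⟨?_, ?_⟩⟩
    · rw [fderiv_rigid hu]
      simpa using (hNw w hw).1
    · rw [fderiv2_rigid hu, fderiv2_rigid hu]
      exact hB w.1 (hNw w hw).2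
  · intro f hf h0 hM
    have m0 : (0 : ℂ) ∈ ball (0 : ℂ) 1 := mem_ball_self one_pos
    have hre : ∀ t ∈ ball (0 : ℂ) 1, (f t).2.re = u (f t).1 := fun t ht => by
      linarith [(hM t ht).2]
    have hu0 : u (f 0).1 = 0 := (h _ (hM 0 m0).1).2.1.2 fun k => hin k _ (hM 0 m0).1 h0
    have hg : DifferentiableOn ℂ (fun s => Complex.exp (-(f s).2)) (ball 0 1) := hf.snd.neg.cexp
    have hmax : IsMaxOn (norm ∘ fun s => Complex.exp (-(f s).2)) (ball 0 1) 0 := by
      intro t ht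
      simp only [mem_ofPred_eq, Function.comp, Complex.norm_exp, Complex.neg_re, Real.exp_le_exp]
      rw [hre t ht, hre 0 m0, hu0]
      linarith [(h _ (hM t ht).1).1]
    have hconst := Complex.norm_eqOn_of_isPreconnected_of_isMaxOn
      (convex_ball (0 : ℂ) 1).isPreconnected isOpen_ball hg m0 hmax
    have hz : ∀ t ∈ ball (0 : ℂ) 1, (f t).2.re = 0 := by
      intro t ht
      have h1 := hconst ht
      simp only [Function.comp, Function.const, Complex.norm_exp, Complex.neg_re,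
        Real.exp_eq_exp] at h1
      rw [hre 0 m0, hu0] at h1
      linarith
    intro t ht
    refine Prod.ext (hdisc (fun s => (f s).1) hf.fst (fun s hs => ⟨(hM s hs).1, ?_⟩) t ht) ?_
    · exact (h _ (hM s hs).1).2.1.1 (by rw [← hre s hs, hz s hs])
    · refine const_of_omit (g := fun s => (f s).2) hf.snd
        ((dense_compl_singleton (0 : ℝ)).preimage Complex.isOpenMap_re) (fun s hs hs2 => ?_) t ht
      exact hs2 (hz s hs)

end Pool.Agent.Lib.MP_f65947_an.Fat
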