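import Mathlib

/-! One-variable lemma: for a nonzero holomorphic `g` on the unit disc with `g 0 = 0` and large
`c`, no function within `1/4` of `1 + c g` is the square of a holomorphic function. -/

set_option autoImplicit false

open Set Filter Topology Metric

namespace Pool.Agent.Lib.MP_f65947_an

theorem eventually_norm_le_deriv (g : ℂ → ℂ) (hg : AnalyticAt ℂ g 0) (h0 : g 0 = 0)
    (hne : ¬ ∀ᶠ z in 𝓝 (0 : ℂ), g z = 0) :
    ∀ᶠ z in 𝓝 (0 : ℂ), ‖g z‖ ≤ ‖deriv g z‖ ∧ (z ≠ 0 → g z ≠ 0) := by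
  obtain ⟨m, q, hq, hq0, hgq⟩ := hg.exists_eventuallyEq_pow_smul_nonzero_iff.2 hne
  simp only [sub_zero, smul_eq_mul] at hgq
  have hm : m ≠ 0 := by
    rintro rfl
    have := hgq.self_of_nhds
    simp [h0] at this
    exact hq0 this.symm
  obtain ⟨k, rfl⟩ := Nat.exists_eq_succ_of_ne_zero hm
  have hgq' : g =ᶠ[𝓝 0] fun z => z ^ (k + 1) * q z := hgq
  have hd := hgq'.deriv
  have hqa : ∀ᶠ z in 𝓝 (0 : ℂ), AnalyticAt ℂ q z := hq.eventually_analyticAt
  have hc1 : ContinuousAt (fun z : ℂ => ‖z * q z‖) 0 :=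
    (continuousAt_id.mul hq.continuousAt).norm
  have hc2 : ContinuousAt (fun z : ℂ => ‖((k : ℂ) + 1) * q z + z * deriv q z‖) 0 :=
    ((continuousAt_const.mul hq.continuousAt).add
      (continuousAt_id.mul hq.deriv.continuousAt)).norm
  have hlt : ∀ᶠ z in 𝓝 (0 : ℂ), ‖z * q z‖ < ‖((k : ℂ) + 1) * q z + z * deriv q z‖ := by
    apply hc1.eventually_lt hc2
    simp only [zero_mul, norm_zero, add_zero, norm_pos_iff]
    exact mul_ne_zero (by exact_mod_cast Nat.succ_ne_zero k) hq0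
  have hqne : ∀ᶠ z in 𝓝 (0 : ℂ), q z ≠ 0 := hq.continuousAt.eventually_ne hq0
  filter_upwards [hgq, hd, hqa, hlt, hqne] with z h1 h2 h3 h4 h5
  refine ⟨?_, fun hz => ?_⟩
  · have h6 : HasDerivAt (fun z => z ^ (k + 1) * q z)
        (((k + 1 : ℕ) : ℂ) * z ^ k * q z + z ^ (k + 1) * deriv q z) z := by
      have := (hasDerivAt_pow (k + 1) z).fun_mul h3.differentiableAt.hasDerivAt
      simpa using this
    rw [h1, h2, h6.deriv]
    have e1 : z ^ (k + 1) * q z = z ^ k * (z * q z) := by ring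
    have e2 : ((k + 1 : ℕ) : ℂ) * z ^ k * q z + z ^ (k + 1) * deriv q z =
        z ^ k * (((k : ℂ) + 1) * q z + z * deriv q z) := by push_cast; ring
    rw [Nat.succ_eq_add_one, e1, e2, norm_mul (z ^ k), norm_mul (z ^ k)]
    exact mul_le_mul_of_nonneg_left h4.le (norm_nonneg _)
  · rw [h1]
    exact mul_ne_zero (pow_ne_zero _ hz) h5

theorem no_sqrt (g : ℂ → ℂ) (hg : DifferentiableOn ℂ g (ball 0 1)) (h0 : g 0 = 0)
    (hne : ∃ t ∈ ball (0 : ℂ) 1, g t ≠ 0) :
    ∃ c0 : ℝ, ∀ c : ℝ, c0 ≤ c → ∀ H e : ℂ → ℂ, DifferentiableOn ℂ H (ball 0 1) →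
      DifferentiableOn ℂ e (ball 0 1) → (∀ t ∈ ball (0 : ℂ) 1, H t ^ 2 = 1 + c * g t + e t) →
      (∀ t ∈ ball (0 : ℂ) 1, ‖e t‖ ≤ 1 / 4) → False := by
  have han : AnalyticOnNhd ℂ g (ball 0 1) := hg.analyticOnNhd isOpen_ball
  have h01 : (0 : ℂ) ∈ ball (0 : ℂ) 1 := mem_ball_self one_pos
  have hne' : ¬ ∀ᶠ z in 𝓝 (0 : ℂ), g z = 0 := by
    intro h
    obtain ⟨t, ht, hgt⟩ := hne
    exact hgt (han.eqOn_zero_of_preconnected_of_eventuallyEq_zero
      (convex_ball 0 1).isPreconnected h01 h ht)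
  have hev := eventually_norm_le_deriv g (han 0 h01) h0 hne'
  obtain ⟨ε, εpos, hε⟩ := Metric.eventually_nhds_iff_ball.1 hev
  set r : ℝ := min (ε / 2) (1 / 4) with hr
  have rpos : 0 < r := lt_min (by positivity) (by norm_num)
  have r1 : r < ε := lt_of_le_of_lt (min_le_left _ _) (by linarith)
  have r2 : r ≤ 1 / 4 := min_le_right _ _
  have hsub : closedBall (0 : ℂ) r ⊆ ball 0 1 := closedBall_subset_ball (by linarith)
  have hsub' : closedBall (0 : ℂ) r ⊆ ball 0 ε := closedBall_subset_ball r1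
  have hcont : ContinuousOn (fun z => ‖g z‖) (sphere (0 : ℂ) r) :=
    (hg.continuousOn.mono (sphere_subset_closedBall.trans hsub)).norm
  obtain ⟨z0, hz0, hmin⟩ := (isCompact_sphere (0 : ℂ) r).exists_isMinOn
    (NormedSpace.sphere_nonempty.2 rpos.le) hcont
  have μpos : 0 < ‖g z0‖ := by
    rw [norm_pos_iff]
    refine (hε z0 (hsub' (sphere_subset_closedBall hz0))).2 ?_
    rintro rfl
    simp at hz0
    exact rpos.ne hz0
  refine ⟨3 / ‖g z0‖, fun c hc H e hH he hEq hb => ?_⟩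
  have cpos : 0 < c := lt_of_lt_of_le (by positivity) hc
  have hc3 : 3 ≤ c * ‖g z0‖ := by rwa [div_le_iff₀ μpos] at hc
  -- there is a zero of H in the closed disc of radius r
  have hzero : ∃ t ∈ closedBall (0 : ℂ) r, H t = 0 := by
    by_contra hno
    push Not at hno
    have hdiff : DifferentiableOn ℂ (fun t => (H t ^ 2)⁻¹) (closedBall 0 r) :=
      ((hH.mono hsub).pow 2).inv fun t ht => pow_ne_zero 2 (hno t ht)
    have hdc : DiffContOnCl ℂ (fun t => (H t ^ 2)⁻¹) (ball 0 r) := by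
      apply DifferentiableOn.diffContOnCl
      rwa [closure_ball _ rpos.ne']
    have hle : ‖(H 0 ^ 2)⁻¹‖ ≤ 4 / 7 := by
      apply Complex.norm_le_of_forall_mem_frontier_norm_le isBounded_ball hdc
      · intro z hz
        rw [frontier_ball _ rpos.ne'] at hz
        have hz1 := hsub (sphere_subset_closedBall hz)
        have h1 : ‖g z0‖ ≤ ‖g z‖ := hmin hz
        have h2 : ‖(c : ℂ) * g z‖ ≤ ‖H z ^ 2‖ + 1 + ‖e z‖ := by
          have : (c : ℂ) * g z = H z ^ 2 - 1 - e z := by rw [hEq z hz1]; ring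
          rw [this]
          calc ‖H z ^ 2 - 1 - e z‖ ≤ ‖H z ^ 2 - 1‖ + ‖e z‖ := norm_sub_le _ _
            _ ≤ ‖H z ^ 2‖ + ‖(1 : ℂ)‖ + ‖e z‖ := by gcongr; exact norm_sub_le _ _
            _ = _ := by rw [norm_one]
        rw [norm_mul, Complex.norm_real, Real.norm_of_nonneg cpos.le] at h2
        have h3 := hb z hz1
        have h4 : 7 / 4 ≤ ‖H z ^ 2‖ := by nlinarith
        rw [norm_inv]
        calc ‖H z ^ 2‖⁻¹ ≤ (7 / 4 : ℝ)⁻¹ := inv_anti₀ (by norm_num) h4
          _ = 4 / 7 := by norm_num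
      · exact subset_closure (mem_ball_self rpos)
    have h5 : ‖H 0 ^ 2‖ ≤ 5 / 4 := by
      rw [hEq 0 h01, h0, mul_zero, add_zero]
      have := norm_add_le (1 : ℂ) (e 0)
      have h3 := hb 0 h01
      rw [norm_one] at this
      linarith
    have h6 : 0 < ‖H 0 ^ 2‖ := norm_pos_iff.2 (pow_ne_zero 2 (hno 0 (mem_closedBall_self rpos.le)))
    rw [norm_inv, inv_le_comm₀ h6 (by norm_num)] at hle
    norm_num at hle h5
    linarith
  obtain ⟨t, ht, hHt⟩ := hzero
  have ht1 := hsub ht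
  have hnb : ball (0 : ℂ) 1 ∈ 𝓝 t := isOpen_ball.mem_nhds ht1
  have dH := (hH.differentiableAt hnb).hasDerivAt
  have dg := (hg.differentiableAt hnb).hasDerivAt
  have de := (he.differentiableAt hnb).hasDerivAt
  have d1 : HasDerivAt (fun z => H z ^ 2) 0 t := by
    have := dH.fun_pow 2
    simpa [hHt] using this
  have d2 : HasDerivAt (fun z => 1 + c * g z + e z) (c * deriv g t + deriv e t) t :=
    ((dg.const_mul (c : ℂ)).const_add 1).add de
  have d3 : HasDerivAt (fun z => H z ^ 2) (c * deriv g t + deriv e t) t := by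
    apply d2.congr_of_eventuallyEq
    filter_upwards [hnb] with z hz using hEq z hz
  have e0 : (c : ℂ) * deriv g t = - deriv e t := by
    have := d1.unique d3
    linear_combination -this
  have hsub2 : closedBall t (1 / 2) ⊆ ball (0 : ℂ) 1 := by
    apply closedBall_subset_ball'
    have := mem_closedBall.1 ht
    linarith
  have hde : ‖deriv e t‖ ≤ (1 / 4) / (1 / 2) := by
    apply Complex.norm_deriv_le_of_forall_mem_sphere_norm_le (by norm_num)
    · apply DifferentiableOn.diffContOnCl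
      rw [closure_ball _ (by norm_num)]
      exact he.mono hsub2
    · intro z hz
      exact hb z (hsub2 (sphere_subset_closedBall hz))
  have h1 : c * ‖deriv g t‖ ≤ 1 / 2 := by
    have := congrArg norm e0
    rw [norm_mul, Complex.norm_real, Real.norm_of_nonneg cpos.le, norm_neg] at this
    rw [this]
    linarith
  have h2 : 3 / 4 ≤ c * ‖g t‖ := by
    have e1 : (1 : ℂ) = -((c : ℂ) * g t) - e t := by
      have := hEq t ht1
      rw [hHt] at this
      linear_combination -this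
    have e2 : ‖(1 : ℂ)‖ ≤ ‖-((c : ℂ) * g t)‖ + ‖e t‖ := by
      conv_lhs => rw [e1]
      exact norm_sub_le _ _
    rw [norm_one, norm_neg, norm_mul, Complex.norm_real, Real.norm_of_nonneg cpos.le] at e2
    have := hb t ht1
    linarith
  have h3 := (hε t (hsub' ht)).1
  nlinarith

end Pool.Agent.Lib.MP_f65947_an
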