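import Pool.Agent.Lib.MP_f65947_an.Series
import Pool.Agent.Lib.MP_f65947_an.Psi
import Pool.Agent.Lib.MP_f65947_an.Sqrt

/-! A smooth plurisubharmonic defining function on the unit polydisc of complex dimension three
whose complex Hessian has rank at most one everywhere, and whose zero set contains no
nonconstant holomorphic disc through the origin. -/

set_option autoImplicit false

open Set Filter Topology Metric
open scoped ContDiff

namespace Pool.Agent.Lib.MP_f65947_an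

/-- The coordinate used at step `k`. -/
def idx (k : ℕ) : Fin 3 := ⟨k % 3, Nat.mod_lt _ (by norm_num)⟩

/-- Nested lemniscates of Wermer type. -/
noncomputable def Q : ℕ → (Fin 3 → ℂ) → ℂ
  | 0 => fun _ => 0
  | k + 1 => fun x => 4 * ((1 + ((k : ℂ) + 3) * Q k x) ^ 2 - 1 - (k : ℂ) * x (idx k))

theorem Q_contDiff (k : ℕ) : ContDiff ℂ ∞ (Q k) := by
  induction k with
  | zero => exact contDiff_const
  | succ k ih =>
    unfold Q
    have h : ContDiff ℂ ∞ (fun x : Fin 3 → ℂ => x (idx k)) := contDiff_apply ℂ ℂ (idx k)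
    exact contDiff_const.mul ((((contDiff_const.add (contDiff_const.mul ih)).pow 2).sub
      contDiff_const).sub (contDiff_const.mul h))

theorem Q_zero (k : ℕ) : Q k 0 = 0 := by
  induction k with
  | zero => rfl
  | succ k ih => simp [Q, ih]

theorem Q_step (k : ℕ) (x : Fin 3 → ℂ) (hx : x ∈ ball (0 : Fin 3 → ℂ) 1)
    (h : ‖Q (k + 1) x‖ < 2) : ‖Q k x‖ ≤ 1 := by
  by_contra hk
  push Not at hk
  have hx1 : ‖x (idx k)‖ ≤ 1 := (norm_le_pi_norm x _).trans (mem_ball_zero_iff.1 hx).le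
  have k0 : (0 : ℝ) ≤ k := Nat.cast_nonneg k
  have e1 : (1 + ((k : ℂ) + 3) * Q k x) ^ 2 = Q (k + 1) x / 4 + 1 + (k : ℂ) * x (idx k) := by
    simp only [Q]; ring
  have h1 : ‖1 + ((k : ℂ) + 3) * Q k x‖ ^ 2 ≤ 1 / 2 + 1 + k := by
    rw [← norm_pow, e1]
    calc _ ≤ ‖Q (k + 1) x / 4 + 1‖ + ‖(k : ℂ) * x (idx k)‖ := norm_add_le _ _
      _ ≤ ‖Q (k + 1) x / 4‖ + ‖(1 : ℂ)‖ + ‖(k : ℂ) * x (idx k)‖ := by
        gcongr; exact norm_add_le _ _
      _ ≤ 1 / 2 + 1 + k := by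
        rw [norm_div, norm_one, norm_mul, Complex.norm_natCast]
        have : ‖(4 : ℂ)‖ = 4 := by simp
        rw [this]
        nlinarith
  have h2 : ((k : ℝ) + 3) * ‖Q k x‖ ≤ ‖1 + ((k : ℂ) + 3) * Q k x‖ + 1 := by
    have e2 : ((k : ℂ) + 3) * Q k x = (1 + ((k : ℂ) + 3) * Q k x) - 1 := by ring
    have e3 : ‖((k : ℂ) + 3)‖ = (k : ℝ) + 3 := by
      have : ((k : ℂ) + 3) = ((k + 3 : ℕ) : ℂ) := by push_cast; ring
      rw [this, Complex.norm_natCast]; push_cast; ring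
    calc ((k : ℝ) + 3) * ‖Q k x‖ = ‖((k : ℂ) + 3) * Q k x‖ := by rw [norm_mul, e3]
      _ ≤ ‖1 + ((k : ℂ) + 3) * Q k x‖ + ‖(1 : ℂ)‖ := by
        conv_lhs => rw [e2]
        exact norm_sub_le _ _
      _ = _ := by rw [norm_one]
  have h3 : (k : ℝ) + 2 ≤ ‖1 + ((k : ℂ) + 3) * Q k x‖ := by nlinarith
  nlinarith

theorem Q_nested (x : Fin 3 → ℂ) (hx : x ∈ ball (0 : Fin 3 → ℂ) 1) (j k : ℕ) (hjk : j < k)
    (h : ‖Q k x‖ < 2) : ‖Q j x‖ ≤ 1 := by
  induction k with
  | zero => omega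
  | succ k ih =>
    have h1 := Q_step k x hx h
    rcases Nat.lt_succ_iff_lt_or_eq.1 hjk with h2 | h2
    · exact ih h2 (by linarith)
    · rw [h2]; exact h1

theorem exists_index (x : Fin 3 → ℂ) (hx : x ∈ ball (0 : Fin 3 → ℂ) 1) :
    ∃ k0, ∀ k, k ≠ k0 → ‖Q k x‖ ≤ 1 ∨ 2 ≤ ‖Q k x‖ := by
  by_cases h : ∃ k0, 1 < ‖Q k0 x‖ ∧ ‖Q k0 x‖ < 2
  · obtain ⟨k0, h1, h2⟩ := h
    refine ⟨k0, fun k hk => ?_⟩
    rcases lt_or_gt_of_ne hk with h3 | h3
    · exact Or.inl (Q_nested x hx k k0 h3 h2)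
    · right
      by_contra h4
      push Not at h4
      have := Q_nested x hx k0 k h3 h4
      linarith
  · push Not at h
    refine ⟨0, fun k _ => ?_⟩
    by_cases h1 : ‖Q k x‖ ≤ 1
    · exact Or.inl h1
    · exact Or.inr (h k (not_le.1 h1))

theorem no_disc (f : ℂ → Fin 3 → ℂ) (hf : DifferentiableOn ℂ f (ball 0 1)) (h0 : f 0 = 0)
    (hne : ∃ t ∈ ball (0 : ℂ) 1, f t ≠ 0)
    (hQ : ∀ t ∈ ball (0 : ℂ) 1, ∀ k, ‖Q k (f t)‖ ≤ 1) : False := by
  obtain ⟨t, ht, hft⟩ := hne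
  obtain ⟨j, hj⟩ := Function.ne_iff.1 hft
  have hg : DifferentiableOn ℂ (fun s => f s j) (ball 0 1) := differentiableOn_pi.1 hf j
  obtain ⟨c0, hc0⟩ := no_sqrt (fun s => f s j) hg (by simp [h0]) ⟨t, ht, hj⟩
  obtain ⟨N, hN⟩ := exists_nat_ge c0
  set k : ℕ := 3 * N + j.val with hk
  have hidx : idx k = j := by
    apply Fin.ext
    have := j.isLt
    simp only [idx, hk]
    omega
  have hQf : ∀ m, DifferentiableOn ℂ (fun s => Q m (f s)) (ball 0 1) := fun m =>
    ((Q_contDiff m).differentiable (by simp)).comp_differentiableOn hf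
  refine hc0 (k : ℝ) ?_ (fun s => 1 + ((k : ℂ) + 3) * Q k (f s)) (fun s => Q (k + 1) (f s) / 4)
    (((hQf k).const_mul _).const_add _) ((hQf (k + 1)).div_const _) ?_ ?_
  · refine hN.trans ?_
    exact_mod_cast (by omega : N ≤ k)
  · intro s _
    simp only [Q, hidx]
    push_cast
    ring
  · intro s hs
    rw [norm_div]
    have : ‖(4 : ℂ)‖ = 4 := by simp
    rw [this]
    have := hQ s hs (k + 1)
    linarith

/-- A bump function equal to one on the closed unit polydisc. -/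
noncomputable def bump : ContDiffBump (0 : Fin 3 → ℂ) := ⟨1, 2, by norm_num, by norm_num⟩

noncomputable def term (k : ℕ) (x : Fin 3 → ℂ) : ℝ := bump x * psi (Q k x)

theorem term_contDiff (k : ℕ) : ContDiff ℝ ∞ (term k) :=
  bump.contDiff.mul (psi_contDiff.comp ((Q_contDiff k).restrict_scalars ℝ))

theorem term_compact (k : ℕ) : HasCompactSupport (term k) :=
  bump.hasCompactSupport.mul_right

theorem term_eq (k : ℕ) (x : Fin 3 → ℂ) (hx : x ∈ ball (0 : Fin 3 → ℂ) 1) :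
    term k x = psi (Q k x) := by
  rw [term, bump.one_of_mem_closedBall (ball_subset_closedBall hx), one_mul]

theorem levi_term (k : ℕ) (x : Fin 3 → ℂ) (hx : x ∈ ball (0 : Fin 3 → ℂ) 1) (w : Fin 3 → ℂ) :
    fderiv ℝ (fderiv ℝ (term k)) x w w +
      fderiv ℝ (fderiv ℝ (term k)) x (Complex.I • w) (Complex.I • w) =
      fderiv ℝ (fderiv ℝ psi) (Q k x) (fderiv ℂ (Q k) x w) (fderiv ℂ (Q k) x w) +
        fderiv ℝ (fderiv ℝ psi) (Q k x) (Complex.I * fderiv ℂ (Q k) x w)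
          (Complex.I * fderiv ℂ (Q k) x w) := by
  have h : term k =ᶠ[𝓝 x] fun y => psi (Q k y) := by
    filter_upwards [isOpen_ball.mem_nhds hx] with y hy using term_eq k y hy
  rw [h.fderiv.fderiv_eq]
  exact levi_comp psi (psi_contDiff.of_le (by norm_cast)) (Q k)
    ((Q_contDiff k).of_le (by norm_cast)) x w

/-- The real part of the last coordinate. -/
noncomputable def reLast : (Fin 3 → ℂ) →L[ℝ] ℝ :=
  Complex.reCLM.comp (ContinuousLinearMap.proj (R := ℝ) (φ := fun _ : Fin 3 => ℂ) 2)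

theorem reLast_apply (x : Fin 3 → ℂ) : reLast x = (x 2).re := rfl

theorem exists_null (A : (Fin 3 → ℂ) →L[ℝ] ℝ) (B : (Fin 3 → ℂ) →L[ℂ] ℂ) :
    ∃ w : Fin 3 → ℂ, w ≠ 0 ∧ A w = 0 ∧ A (Complex.I • w) = 0 ∧ B w = 0 := by
  let T : (Fin 3 → ℂ) →ₗ[ℝ] ℝ × ℝ × ℂ :=
    { toFun := fun w => (A w, A (Complex.I • w), B w)
      map_add' := by intro x y; simp
      map_smul' := by
        intro c x
        have : Complex.I • c • x = c • Complex.I • x := smul_comm _ _ _
        simp [this] }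
  have hT : LinearMap.ker T ≠ ⊥ := by
    apply T.ker_ne_bot_of_finrank_lt
    simp [Module.finrank_pi_fintype, Complex.finrank_real_complex]
  obtain ⟨w, hw, hw0⟩ := (Submodule.ne_bot_iff _).1 hT
  have : (A w, A (Complex.I • w), B w) = 0 := hw
  simp only [Prod.mk_eq_zero] at this
  exact ⟨w, hw0, this.1, this.2.1, this.2.2⟩

theorem exists_example : ∃ ρ : (Fin 3 → ℂ) → ℝ, ContDiff ℝ ∞ ρ ∧ ρ 0 = 0 ∧
    (∀ z, fderiv ℝ ρ z ≠ 0) ∧
    (∀ z ∈ ball (0 : Fin 3 → ℂ) 1, ∀ w : Fin 3 → ℂ, 0 ≤ fderiv ℝ (fderiv ℝ ρ) z w w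
        + fderiv ℝ (fderiv ℝ ρ) z (Complex.I • w) (Complex.I • w)) ∧
    (∀ z ∈ ball (0 : Fin 3 → ℂ) 1, ∃ w : Fin 3 → ℂ, w ≠ 0 ∧ fderiv ℝ ρ z w = 0 ∧
        fderiv ℝ ρ z (Complex.I • w) = 0 ∧
        fderiv ℝ (fderiv ℝ ρ) z w w
          + fderiv ℝ (fderiv ℝ ρ) z (Complex.I • w) (Complex.I • w) = 0) ∧
    ∀ f : ℂ → (Fin 3 → ℂ), DifferentiableOn ℂ f (ball (0 : ℂ) 1) → f 0 = 0 →
      (∃ t ∈ ball (0 : ℂ) 1, f t ≠ 0) →
      (∀ t ∈ ball (0 : ℂ) 1, f t ∈ ball (0 : Fin 3 → ℂ) 1 ∧ ρ (f t) = 0) → False := by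
  obtain ⟨r, rpos, F, hF, hsum, hD, hD2⟩ := exists_smooth_sum term term_contDiff term_compact
  have e1 : fderiv ℝ (fun x => F x - reLast x) = fun x => fderiv ℝ F x - reLast := by
    funext x
    exact ((hF.differentiable (by simp) x).hasFDerivAt.fun_sub reLast.hasFDerivAt).fderiv
  have e2 : ∀ x, fderiv ℝ (fderiv ℝ (fun x => F x - reLast x)) x = fderiv ℝ (fderiv ℝ F) x := by
    intro x
    rw [e1]
    exact fderiv_sub_const _
  have hL : ∀ z ∈ ball (0 : Fin 3 → ℂ) 1, ∀ w : Fin 3 → ℂ, HasSum (fun k => r k *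
      (fderiv ℝ (fderiv ℝ psi) (Q k z) (fderiv ℂ (Q k) z w) (fderiv ℂ (Q k) z w) +
        fderiv ℝ (fderiv ℝ psi) (Q k z) (Complex.I * fderiv ℂ (Q k) z w)
          (Complex.I * fderiv ℂ (Q k) z w)))
      (fderiv ℝ (fderiv ℝ F) z w w + fderiv ℝ (fderiv ℝ F) z (Complex.I • w) (Complex.I • w)) := by
    intro z hz w
    have := (hD2 z w w).add (hD2 z (Complex.I • w) (Complex.I • w))
    simp only [← mul_add, levi_term _ z hz w] at this
    exact this
  have hnn : ∀ z ∈ ball (0 : Fin 3 → ℂ) 1, ∀ k, 0 ≤ r k * term k z := fun z hz k => by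
    rw [term_eq k z hz]
    exact mul_nonneg (rpos k).le (psi_nonneg _)
  refine ⟨fun x => F x - reLast x, hF.sub reLast.contDiff, ?_, ?_, ?_, ?_, ?_⟩
  · have h := hsum 0
    have h0 : (fun n => r n * term n 0) = fun _ => 0 := by
      funext n
      rw [term_eq n 0 (mem_ball_self one_pos), Q_zero, psi_zero, mul_zero]
    rw [h0] at h
    simp [h.unique hasSum_zero]
  · intro z hz
    rw [e1] at hz
    have h1 : fderiv ℝ F z = reLast := sub_eq_zero.1 hz
    have h2 := (fderiv ℝ F z).le_opNorm (Pi.single 2 1)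
    have h3 := hD z
    have h4 : ‖(Pi.single 2 1 : Fin 3 → ℂ)‖ = 1 := by simp [Pi.norm_single]
    rw [h4] at h2
    have h5 : fderiv ℝ F z (Pi.single 2 1) = 1 := by rw [h1, reLast_apply]; simp
    rw [h5, norm_one] at h2
    linarith
  · intro z hz w
    rw [e2]
    exact (hL z hz w).nonneg fun k => mul_nonneg (rpos k).le (levi_psi_nonneg _ _)
  · intro z hz
    obtain ⟨k0, hk0⟩ := exists_index z hz
    obtain ⟨w, hw, h1, h2, h3⟩ :=
      exists_null (fderiv ℝ (fun x => F x - reLast x) z) (fderiv ℂ (Q k0) z)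
    refine ⟨w, hw, h1, h2, ?_⟩
    rw [e2]
    have h := hL z hz w
    have h0 : (fun k => r k *
      (fderiv ℝ (fderiv ℝ psi) (Q k z) (fderiv ℂ (Q k) z w) (fderiv ℂ (Q k) z w) +
        fderiv ℝ (fderiv ℝ psi) (Q k z) (Complex.I * fderiv ℂ (Q k) z w)
          (Complex.I * fderiv ℂ (Q k) z w))) = fun _ => 0 := by
      funext k
      rw [levi_psi_zero, mul_zero]
      by_cases hk : k = k0
      · subst hk; exact Or.inr (Or.inr h3)
      · rcases hk0 k hk with h | h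
        · exact Or.inl h
        · exact Or.inr (Or.inl h)
    rw [h0] at h
    exact h.unique hasSum_zero
  · intro f hf h0 hne hin
    apply no_disc f hf h0 hne
    have hg : DifferentiableOn ℂ (fun s => Complex.exp (-f s 2)) (ball 0 1) :=
      (differentiableOn_pi.1 hf 2).neg.cexp
    have hre : ∀ t ∈ ball (0 : ℂ) 1, (f t 2).re = F (f t) := fun t ht => by
      have := (hin t ht).2
      simp only [reLast_apply] at this
      linarith
    have hmax : IsMaxOn (norm ∘ fun s => Complex.exp (-f s 2)) (ball 0 1) 0 := by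
      intro t ht
      have h1 : 0 ≤ F (f t) := (hsum (f t)).nonneg (hnn _ (hin t ht).1)
      simp only [mem_ofPred_eq, Function.comp, Complex.norm_exp, h0, Pi.zero_apply, neg_zero,
        Complex.zero_re, Complex.neg_re, Real.exp_le_exp]
      rw [hre t ht]
      linarith
    have hconst := Complex.norm_eqOn_of_isPreconnected_of_isMaxOn
      (convex_ball (0 : ℂ) 1).isPreconnected isOpen_ball hg (mem_ball_self one_pos) hmax
    intro t ht k
    have h1 := hconst ht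
    simp only [Function.comp, Function.const, Complex.norm_exp, h0, Pi.zero_apply, neg_zero,
      Complex.zero_re, Complex.neg_re, Real.exp_eq_exp] at h1
    have h2 : F (f t) = 0 := by rw [← hre t ht]; linarith
    have h3 : r k * term k (f t) ≤ F (f t) :=
      le_hasSum (hsum (f t)) k fun j _ => hnn _ (hin t ht).1 j
    rw [h2, term_eq k _ (hin t ht).1] at h3
    apply norm_le_one_of_psi_eq_zero
    have h4 := psi_nonneg (Q k (f t))
    have h5 := rpos k
    nlinarith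

end Pool.Agent.Lib.MP_f65947_an
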